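import Pool.Agent.Lib.ModPoly29.Forms

/-!
# The modular equation of prime level
-/

open UpperHalfPlane ModularForm ModularFormClass MatrixGroups EisensteinSeries Polynomial
open scoped Manifold

namespace Pool.Agent.Lib.ModPoly29

noncomputable section


variable {l : ℕ} [Fact l.Prime]

lemma l_pos : 0 < l := (Fact.out : l.Prime).pos

lemma form_coeff (i m : ℕ) : (qExpansion 1 (form l i)).coeff m =
    (qExpansion l (fi l i)).coeff (l * m) := by
  have hl : 0 < l := l_pos
  have h := mem_Rl_of_hasSum (l := l) hl (f := fi l i)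
    (c := fun n => if l ∣ n then (qExpansion 1 (form l i)).coeff (n / l) else 0)
    ((Psi l).coeff i).2.1 (fun τ => by
      have h1 : HasSum (fun m : ℕ => (qExpansion 1 (form l i)).coeff m • Function.Periodic.qParam (1 : ℝ) τ ^ m)
        (fi l i τ) := (nice_of_form _ (form l i)).2 τ
      have h2 : Function.Periodic.qParam (1 : ℝ) τ = Function.Periodic.qParam (l : ℝ) τ ^ l := by
        unfold Function.Periodic.qParam
        rw [← Complex.exp_nat_mul]
        congr 1
        have hl0 : (l : ℂ) ≠ 0 := by exact_mod_cast hl.ne'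
        push_cast
        field_simp
      rw [h2] at h1
      have hinj : Function.Injective (fun m : ℕ => l * m) := by
        intro a b hab
        exact Nat.eq_of_mul_eq_mul_left hl hab
      rw [← hinj.hasSum_iff]
      · convert h1 using 2 with m
        simp only [Function.comp_apply, smul_eq_mul]
        rw [if_pos (dvd_mul_right _ _), Nat.mul_div_cancel_left _ hl, pow_mul]
      · intro m hm
        rw [if_neg, zero_smul]
        rintro ⟨c, rfl⟩
        exact hm ⟨c, rfl⟩)
  rw [h.2, PowerSeries.coeff_mk, if_pos (dvd_mul_right _ _), Nat.mul_div_cancel_left _ hl]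

/-- the product over the finite points -/
def Qf (l : ℕ) [NeZero l] : Polynomial (PowerSeries ℂ) :=
  ∏ b : ZMod l, (C (PowerSeries.rescale (zet l ^ b.val) (qExpansion 1 (CuspForm.discriminant : ℍ → ℂ))) * X -
    C (PowerSeries.rescale (zet l ^ b.val) (qExpansion 1 (E4c : ℍ → ℂ))))

lemma Psi_qh (hl : 0 < l) : (Psi l).map (qh l hl) =
    (C (expand2 l (qExpansion 1 (CuspForm.discriminant : ℍ → ℂ))) * X - C (expand2 l (qExpansion 1 (E4c : ℍ → ℂ)))) * Qf l := by
  unfold Psi Qf
  rw [Polynomial.map_prod, Fintype.prod_option]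
  congr 1
  · rw [Polynomial.map_sub, Polynomial.map_mul, map_C, map_C, map_X]
    congr 2
    · congr 1
      exact (pt_none_mem (nice_of_form 12 CuspForm.discriminant)).2
    · exact (pt_none_mem (nice_of_form 12 E4c)).2
  · refine Finset.prod_congr rfl fun b _ => ?_
    rw [Polynomial.map_sub, Polynomial.map_mul, map_C, map_C, map_X]
    congr 2
    · congr 1
      exact (pt_some_mem (nice_of_form 12 CuspForm.discriminant) b).2
    · exact (pt_some_mem (nice_of_form 12 E4c) b).2

lemma qExp_fi (hl : 0 < l) (i : ℕ) : qExpansion l (fi l i) =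
    ((C (expand2 l (qExpansion 1 (CuspForm.discriminant : ℍ → ℂ))) * X - C (expand2 l (qExpansion 1 (E4c : ℍ → ℂ)))) * Qf l).coeff i := by
  rw [← Psi_qh hl, coeff_map]
  rfl

omit [Fact l.Prime] in
lemma expand2_mem {u : PowerSeries ℂ} (hu : u ∈ Zq) : expand2 l u ∈ Zq := by
  rw [mem_Zq] at hu ⊢
  intro n
  unfold expand2
  rw [PowerSeries.coeff_mk]
  split_ifs
  · exact hu _
  · exact ⟨0, by simp⟩

lemma Δq_mem' : (qExpansion 1 (CuspForm.discriminant : ℍ → ℂ)) ∈ Zq := Δq_mem

lemma Qf_mem (i : ℕ) : (Qf l).coeff i ∈ Zq := by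
  obtain ⟨d, hd⟩ := Δq_mem'
  obtain ⟨a, ha⟩ := E4c_mem
  unfold Qf
  rw [← hd, ← ha]
  exact prod_zeta_integral zet_primitive a d i

lemma form_mem (i : ℕ) : qExpansion 1 (form l i) ∈ Zq := by
  have hl : 0 < l := l_pos
  have h1 : qExpansion l (fi l i) ∈ Zq := by
    rw [qExp_fi hl, sub_mul, coeff_sub, mul_assoc, coeff_C_mul, coeff_C_mul]
    refine sub_mem (mul_mem (expand2_mem Δq_mem') ?_) (mul_mem (expand2_mem E4c_mem) (Qf_mem i))
    cases i with
    | zero => rw [coeff_X_mul_zero]; exact zero_mem _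
    | succ i => rw [coeff_X_mul]; exact Qf_mem i
  rw [mem_Zq] at h1 ⊢
  intro n
  rw [form_coeff]
  exact h1 _

/-- the sign -/
def sgn (l : ℕ) : ℤ := (-1) ^ (l + 1)

lemma sgn_sq (l : ℕ) : sgn l * sgn l = 1 := by
  unfold sgn
  rw [← mul_pow]
  simp

lemma prod_zet : ∏ b : ZMod l, zet l ^ b.val = (sgn l : ℂ) := by
  have hl : 0 < l := l_pos
  have h := congrArg (Polynomial.eval 0) (prod_X_sub_zeta (zet_primitive (l := l)))
  rw [Polynomial.eval_prod] at h
  simp only [eval_sub, eval_X, eval_C, zero_sub, eval_pow, eval_one, zero_pow hl.ne'] at h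
  rw [Finset.prod_neg, Finset.card_univ, ZMod.card] at h
  unfold sgn
  push_cast
  have h2 : ((-1 : ℂ) ^ l) * ((-1 : ℂ) ^ l) = 1 := by rw [← mul_pow]; simp
  calc ∏ b : ZMod l, zet l ^ b.val
      = ((-1 : ℂ) ^ l * (-1) ^ l) * ∏ b : ZMod l, zet l ^ b.val := by rw [h2, one_mul]
    _ = (-1 : ℂ) ^ l * ((-1) ^ l * ∏ b : ZMod l, zet l ^ b.val) := by ring
    _ = (-1) ^ (l + 1) := by rw [h]; ring

lemma coeff_zero_form (i : ℕ) : (qExpansion 1 (form l i)).coeff 0 =
    if i = 0 then (sgn l : ℂ) else 0 := by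
  have hl : 0 < l := l_pos
  rw [form_coeff, mul_zero, qExp_fi hl, PowerSeries.coeff_zero_eq_constantCoeff_apply]
  have h1 : PowerSeries.constantCoeff (((C (expand2 l (qExpansion 1 (CuspForm.discriminant : ℍ → ℂ))) * X - C (expand2 l (qExpansion 1 (E4c : ℍ → ℂ)))) * Qf l).coeff i)
      = ((((C (expand2 l (qExpansion 1 (CuspForm.discriminant : ℍ → ℂ))) * X - C (expand2 l (qExpansion 1 (E4c : ℍ → ℂ)))) * Qf l).map
        (PowerSeries.constantCoeff (R := ℂ))).coeff i) := by rw [coeff_map]
  rw [h1]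
  have hD0 : PowerSeries.constantCoeff ((qExpansion 1 (CuspForm.discriminant : ℍ → ℂ))) = 0 := by
    rw [← PowerSeries.coeff_zero_eq_constantCoeff_apply]; exact Δq_coeff_zero
  have hE0 : PowerSeries.constantCoeff ((qExpansion 1 (E4c : ℍ → ℂ))) = 1 := by
    rw [← PowerSeries.coeff_zero_eq_constantCoeff_apply]; exact E4c_coeff_zero
  have hx : ∀ u : PowerSeries ℂ, PowerSeries.constantCoeff (expand2 l u) =
      PowerSeries.constantCoeff u := by
    intro u
    rw [← PowerSeries.coeff_zero_eq_constantCoeff_apply, expand2, PowerSeries.coeff_mk]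
    simp
  have hr : ∀ (a : ℂ) (u : PowerSeries ℂ), PowerSeries.constantCoeff (PowerSeries.rescale a u) =
      PowerSeries.constantCoeff u := by
    intro a u
    rw [← PowerSeries.coeff_zero_eq_constantCoeff_apply, PowerSeries.coeff_rescale]
    simp
  unfold Qf
  rw [Polynomial.map_mul, Polynomial.map_prod]
  simp only [Polynomial.map_sub, Polynomial.map_mul, map_C, map_X, hx, hr, hD0, hE0, C_0, zero_mul,
    zero_sub, C_1]
  rw [Finset.prod_const, Finset.card_univ, ZMod.card, ← pow_succ']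
  unfold sgn
  have : ((-1 : Polynomial ℂ) ^ (l + 1)) = C ((-1) ^ (l + 1)) := by simp
  rw [this, coeff_C]
  push_cast
  rfl


lemma eq_disc_pow (d : ℕ) : ∀ f : ModularForm 𝒮ℒ ((12 * d : ℕ) : ℤ),
    (∀ m, m < d → (qExpansion 1 f).coeff m = 0) →
    ∀ τ, f τ = (qExpansion 1 f).coeff d * (discriminant τ) ^ d := by
  induction d with
  | zero =>
    intro f _ τ
    obtain ⟨c, hc⟩ := levelOne_weight_zero_const (ModularForm.mcast (b := 0) (by simp) f)
    rw [coe_mcast] at hc
    have h1 : (f : ℍ → ℂ) = c • ((1 : ModularForm 𝒮ℒ 0) : ℍ → ℂ) := by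
      rw [hc]
      ext z
      simp
    have h2 : qExpansion 1 f = c • (1 : PowerSeries ℂ) := by
      rw [h1, ModularForm.qExpansion_smul one_pos one_mem_strictPeriods_SL,
        ModularForm.qExpansion_one]
    rw [h2, PowerSeries.coeff_smul, hc]
    simp
  | succ d ih =>
    intro f hf τ
    have h0 : (qExpansion 1 f).coeff 0 = 0 := hf 0 (Nat.succ_pos d)
    let h : ModularForm 𝒮ℒ ((12 * d : ℕ) : ℤ) :=
      ModularForm.mcast (by push_cast; ring) (CuspForm.discriminantEquiv (toCuspForm f h0))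
    have hh : ∀ τ, f τ = discriminant τ * h τ := by
      intro τ
      have := ModularForm.discriminant_mul_discriminantEquiv_apply (toCuspForm f h0) τ
      simp only [toCuspForm_apply] at this
      exact this.symm
    have hhq : qExpansion 1 f = (qExpansion 1 (CuspForm.discriminant : ℍ → ℂ)) * qExpansion 1 h :=
      qExpansion_eq_qExpansion_discriminant_mul f h0
    have hcoef : ∀ m, (qExpansion 1 f).coeff (m + 1) = (qExpansion 1 h).coeff m +
        ∑ i ∈ Finset.range m, ((qExpansion 1 (CuspForm.discriminant : ℍ → ℂ))).coeff (i + 1 + 1) *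
          (qExpansion 1 h).coeff (m + 1 - (i + 1 + 1)) := by
      intro m
      rw [hhq, PowerSeries.coeff_mul, Finset.Nat.sum_antidiagonal_eq_sum_range_succ_mk]
      simp only
      rw [Finset.sum_range_succ', Finset.sum_range_succ']
      have e0 : ((qExpansion 1 (CuspForm.discriminant : ℍ → ℂ))).coeff 0 = 0 := Δq_coeff_zero
      have e1 : ((qExpansion 1 (CuspForm.discriminant : ℍ → ℂ))).coeff 1 = 1 := discriminant_qExpansion_coeff_one
      simp only [e0, zero_mul, add_zero, zero_add, e1, one_mul, Nat.add_sub_cancel]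
      ring
    have hz : ∀ m, m < d → (qExpansion 1 h).coeff m = 0 := by
      intro m
      induction m using Nat.strong_induction_on with
      | _ m ihm =>
        intro hm
        have h1 := hcoef m
        rw [hf (m + 1) (by omega)] at h1
        have h2 : ∑ i ∈ Finset.range m, ((qExpansion 1 (CuspForm.discriminant : ℍ → ℂ))).coeff (i + 1 + 1) *
            (qExpansion 1 h).coeff (m + 1 - (i + 1 + 1)) = 0 := by
          apply Finset.sum_eq_zero
          intro i hi
          rw [Finset.mem_range] at hi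
          rw [ihm (m + 1 - (i + 1 + 1)) (by omega) (by omega), mul_zero]
        rw [h2, add_zero] at h1
        exact h1.symm
    have hd : (qExpansion 1 f).coeff (d + 1) = (qExpansion 1 h).coeff d := by
      rw [hcoef d]
      have h2 : ∑ i ∈ Finset.range d, ((qExpansion 1 (CuspForm.discriminant : ℍ → ℂ))).coeff (i + 1 + 1) *
          (qExpansion 1 h).coeff (d + 1 - (i + 1 + 1)) = 0 := by
        apply Finset.sum_eq_zero
        intro i hi
        rw [Finset.mem_range] at hi
        rw [hz (d + 1 - (i + 1 + 1)) (by omega), mul_zero]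
      rw [h2, add_zero]
    rw [hh τ, ih h hz τ, hd]
    ring

/-- `Δ` divided by `q` -/
def wq : PowerSeries ℂ := PowerSeries.mk fun n => ((qExpansion 1 (CuspForm.discriminant : ℍ → ℂ))).coeff (n + 1)

lemma Δq_eq : (qExpansion 1 (CuspForm.discriminant : ℍ → ℂ)) = PowerSeries.X * wq := by
  ext n
  cases n with
  | zero =>
    rw [PowerSeries.coeff_zero_X_mul]
    exact Δq_coeff_zero
  | succ n => rw [PowerSeries.coeff_succ_X_mul, wq, PowerSeries.coeff_mk]

lemma wq_zero : PowerSeries.constantCoeff wq = 1 := by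
  rw [← PowerSeries.coeff_zero_eq_constantCoeff_apply, wq, PowerSeries.coeff_mk]
  exact discriminant_qExpansion_coeff_one

lemma prod_rescale : ∃ W : PowerSeries ℂ, PowerSeries.constantCoeff W = 1 ∧
    ∏ b : ZMod l, PowerSeries.rescale (zet l ^ b.val) (qExpansion 1 (CuspForm.discriminant : ℍ → ℂ)) =
      PowerSeries.C (sgn l : ℂ) * PowerSeries.X ^ l * W := by
  refine ⟨∏ b : ZMod l, PowerSeries.rescale (zet l ^ b.val) wq, ?_, ?_⟩
  · rw [map_prod]
    apply Finset.prod_eq_one
    intro b _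
    rw [← PowerSeries.coeff_zero_eq_constantCoeff_apply, PowerSeries.coeff_rescale, pow_zero,
      one_mul, PowerSeries.coeff_zero_eq_constantCoeff_apply, wq_zero]
  · have h1 : ∀ b : ZMod l, PowerSeries.rescale (zet l ^ b.val) (qExpansion 1 (CuspForm.discriminant : ℍ → ℂ)) =
        PowerSeries.C (zet l ^ b.val) * PowerSeries.X *
          PowerSeries.rescale (zet l ^ b.val) wq := by
      intro b
      rw [Δq_eq, map_mul, PowerSeries.rescale_X]
    rw [Finset.prod_congr rfl (fun b _ => h1 b), Finset.prod_mul_distrib, Finset.prod_mul_distrib,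
      ← map_prod, prod_zet, Finset.prod_const, Finset.card_univ, ZMod.card]

lemma Qf_top : (Qf l).coeff l = ∏ b : ZMod l, PowerSeries.rescale (zet l ^ b.val) (qExpansion 1 (CuspForm.discriminant : ℍ → ℂ)) := by
  have h := Polynomial.coeff_prod_of_natDegree_le (Finset.univ : Finset (ZMod l))
    (fun b => (C (PowerSeries.rescale (zet l ^ b.val) (qExpansion 1 (CuspForm.discriminant : ℍ → ℂ))) * X -
      C (PowerSeries.rescale (zet l ^ b.val) (qExpansion 1 (E4c : ℍ → ℂ))))) 1 (fun b _ => by
      rw [natDegree_sub_C]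
      exact (natDegree_C_mul_le _ _).trans natDegree_X_le)
  rw [Finset.card_univ, ZMod.card, mul_one] at h
  unfold Qf
  rw [h]
  refine Finset.prod_congr rfl fun b _ => ?_
  simp

lemma Qf_natDegree : (Qf l).natDegree ≤ l := by
  unfold Qf
  refine (natDegree_prod_le _ _).trans ?_
  calc ∑ b : ZMod l, (C (PowerSeries.rescale (zet l ^ b.val) (qExpansion 1 (CuspForm.discriminant : ℍ → ℂ))) * X -
      C (PowerSeries.rescale (zet l ^ b.val) (qExpansion 1 (E4c : ℍ → ℂ)))).natDegree ≤ ∑ b : ZMod l, 1 := by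
        apply Finset.sum_le_sum
        intro b _
        rw [natDegree_sub_C]
        exact (natDegree_C_mul_le _ _).trans natDegree_X_le
    _ = l := by simp [ZMod.card]


omit [Fact l.Prime] in
lemma expand2_coeff_of_lt {u : PowerSeries ℂ} {n : ℕ} (hn : n < l ^ 2) :
    (expand2 l u).coeff n = if n = 0 then u.coeff 0 else 0 := by
  rw [expand2, PowerSeries.coeff_mk]
  by_cases h0 : n = 0
  · simp [h0]
  · rw [if_neg h0, if_neg]
    intro hd
    exact absurd (Nat.le_of_dvd (Nat.pos_of_ne_zero h0) hd) (by omega)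

lemma expand2_Δq : ∃ U : PowerSeries ℂ, PowerSeries.constantCoeff U = 1 ∧
    expand2 l (qExpansion 1 (CuspForm.discriminant : ℍ → ℂ)) = PowerSeries.X ^ (l ^ 2) * U := by
  have hl2 : 0 < l ^ 2 := pow_pos l_pos 2
  refine ⟨PowerSeries.mk fun n => (expand2 l (qExpansion 1 (CuspForm.discriminant : ℍ → ℂ))).coeff (n + l ^ 2), ?_, ?_⟩
  · rw [← PowerSeries.coeff_zero_eq_constantCoeff_apply, PowerSeries.coeff_mk, zero_add, expand2,
      PowerSeries.coeff_mk, if_pos dvd_rfl, Nat.div_self hl2]
    exact discriminant_qExpansion_coeff_one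
  · ext n
    rw [PowerSeries.coeff_X_pow_mul']
    split_ifs with h
    · rw [PowerSeries.coeff_mk, Nat.sub_add_cancel h]
    · rw [expand2_coeff_of_lt (by omega)]
      split_ifs
      · exact Δq_coeff_zero
      · rfl

lemma lt_sq : l < l ^ 2 := by
  have h2 : 2 ≤ l := (Fact.out : l.Prime).two_le
  nlinarith

lemma coeff_one_form : (qExpansion 1 (form l l)).coeff 1 = -(sgn l : ℂ) := by
  have hl : 0 < l := l_pos
  have hl2 : l < l ^ 2 := lt_sq
  rw [form_coeff, mul_one, qExp_fi hl, sub_mul, coeff_sub, mul_assoc, coeff_C_mul, coeff_C_mul,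
    map_sub]
  have h1 : PowerSeries.coeff l (expand2 l (qExpansion 1 (CuspForm.discriminant : ℍ → ℂ)) * (X * Qf l).coeff l) = 0 := by
    rw [PowerSeries.coeff_mul]
    apply Finset.sum_eq_zero
    rintro ⟨a, b⟩ hab
    rw [Finset.HasAntidiagonal.mem_antidiagonal] at hab
    simp only at hab ⊢
    rw [expand2_coeff_of_lt (by omega)]
    have e0 : ((qExpansion 1 (CuspForm.discriminant : ℍ → ℂ))).coeff 0 = 0 := Δq_coeff_zero
    split_ifs
    · rw [e0, zero_mul]
    · rw [zero_mul]
  have h2 : PowerSeries.coeff l (expand2 l (qExpansion 1 (E4c : ℍ → ℂ)) * (Qf l).coeff l) = (sgn l : ℂ) := by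
    obtain ⟨W, hW, hprod⟩ := prod_rescale (l := l)
    rw [Qf_top, hprod]
    have e1 : expand2 l (qExpansion 1 (E4c : ℍ → ℂ)) * (PowerSeries.C (sgn l : ℂ) * PowerSeries.X ^ l * W) =
        PowerSeries.C (sgn l : ℂ) * ((expand2 l (qExpansion 1 (E4c : ℍ → ℂ)) * W) * PowerSeries.X ^ l) := by ring
    rw [e1, PowerSeries.coeff_C_mul, PowerSeries.coeff_mul_X_pow', if_pos le_rfl, Nat.sub_self,
      PowerSeries.coeff_zero_eq_constantCoeff_apply, map_mul, hW, mul_one,
      ← PowerSeries.coeff_zero_eq_constantCoeff_apply, expand2_coeff_of_lt (by omega), if_pos rfl,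
      E4c_coeff_zero, mul_one]
  rw [h1, h2, zero_sub]

lemma form_top (τ : ℍ) : form l (l + 1) τ = (sgn l : ℂ) * (discriminant τ) ^ (l + 1) := by
  have hl : 0 < l := l_pos
  obtain ⟨W, hW, hprod⟩ := prod_rescale (l := l)
  obtain ⟨U, hU, hexp⟩ := expand2_Δq (l := l)
  have hq : qExpansion l (fi l (l + 1)) =
      PowerSeries.C (sgn l : ℂ) * ((U * W) * PowerSeries.X ^ (l * (l + 1))) := by
    rw [qExp_fi hl, sub_mul, coeff_sub, mul_assoc, coeff_C_mul, coeff_C_mul, coeff_X_mul,
      coeff_eq_zero_of_natDegree_lt (lt_of_le_of_lt Qf_natDegree (Nat.lt_succ_self l)), mul_zero,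
      sub_zero, Qf_top, hprod, hexp]
    rw [show l * (l + 1) = l ^ 2 + l by ring, pow_add]
    ring
  have hc : ∀ m, (qExpansion 1 (form l (l + 1))).coeff m = if m < l + 1 then 0 else
      (sgn l : ℂ) * PowerSeries.coeff (l * m - l * (l + 1)) (U * W) := by
    intro m
    rw [form_coeff, hq, PowerSeries.coeff_C_mul, PowerSeries.coeff_mul_X_pow']
    by_cases hm : m < l + 1
    · rw [if_pos hm, if_neg, mul_zero]
      have : l * m < l * (l + 1) := Nat.mul_lt_mul_of_pos_left hm hl
      omega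
    · rw [if_neg hm, if_pos]
      exact Nat.mul_le_mul_left l (by omega)
  rw [eq_disc_pow (l + 1) (form l (l + 1)) (fun m hm => by rw [hc, if_pos hm]) τ, hc,
    if_neg (lt_irrefl _), Nat.sub_self, PowerSeries.coeff_zero_eq_constantCoeff_apply, map_mul, hU,
    hW, mul_one, mul_one]

lemma jj_factor (σ : ℍ) : CuspForm.discriminant σ * jj σ - E4c σ = 0 := by
  rw [E4c_apply, CuspForm.coe_discriminant, jj_mul, sub_self]

lemma Psi_natDegree (τ : ℍ) : ((Psi l).map (ev l τ)).natDegree ≤ l + 1 := by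
  rw [Psi_map]
  refine (natDegree_prod_le _ _).trans ?_
  calc ∑ o : Option (ZMod l), (C (CuspForm.discriminant (pt l o τ)) * X -
      C (E4c (pt l o τ))).natDegree ≤ ∑ o : Option (ZMod l), 1 := by
        apply Finset.sum_le_sum
        intro o _
        rw [natDegree_sub_C]
        exact (natDegree_C_mul_le _ _).trans natDegree_X_le
    _ = l + 1 := by simp [ZMod.card]

lemma Psi_root (o : Option (ZMod l)) (τ : ℍ) :
    ∑ i ∈ Finset.range (l + 2), fi l i τ * (jj (pt l o τ)) ^ i = 0 := by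
  have h1 := Polynomial.eval_eq_sum_range' (p := (Psi l).map (ev l τ)) (n := l + 2)
    (lt_of_le_of_lt (Psi_natDegree τ) (by omega)) (jj (pt l o τ))
  have h2 : ((Psi l).map (ev l τ)).eval (jj (pt l o τ)) = 0 := by
    rw [Psi_map, Polynomial.eval_prod]
    apply Finset.prod_eq_zero (Finset.mem_univ o)
    simp only [eval_sub, eval_mul, eval_C, eval_X]
    exact jj_factor _
  rw [h2] at h1
  rw [h1]
  exact Finset.sum_congr rfl fun i _ => by rw [fi_apply]

end

/-- **The modular equation of prime level `l`**. Here `pt l none τ = l τ` and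
`pt l (some b) τ = (τ + b) / l`, and `jj = E₄ ^ 3 / Δ` is the `j`-invariant. -/
theorem modular_equation (l : ℕ) [Fact l.Prime] : ∃ a : ℕ → Polynomial ℤ,
    (∀ i, 1 ≤ i → i ≤ l → (a i).natDegree ≤ l) ∧ (a l).coeff l = -1 ∧
    (a 0).natDegree ≤ l + 1 ∧ (a 0).coeff (l + 1) = 1 ∧
    ∀ (o : Option (ZMod l)) (τ : ℍ), (jj (pt l o τ)) ^ (l + 1) +
      ∑ i ∈ Finset.range (l + 1), (Polynomial.aeval (jj τ) (a i)) * (jj (pt l o τ)) ^ i = 0 := by
  have hl : 0 < l := l_pos
  choose p hp1 hp2 hp3 hp4 using fun i => exists_poly (l + 1) (form l i) (form_mem i)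
  have hsq : ((sgn l : ℤ) : ℂ) * (sgn l : ℂ) = 1 := by exact_mod_cast sgn_sq l
  refine ⟨fun i => C (sgn l) * p i, ?_, ?_, ?_, ?_, ?_⟩
  · intro i hi _
    refine (natDegree_C_mul_le _ _).trans ?_
    have h0 : (p i).coeff (l + 1) = 0 := by
      have := hp3 i
      rw [coeff_zero_form, if_neg (by omega)] at this
      exact_mod_cast this
    rw [natDegree_le_iff_coeff_eq_zero]
    intro N hN
    by_cases hN' : N = l + 1
    · rw [hN', h0]
    · exact coeff_eq_zero_of_natDegree_lt (lt_of_le_of_lt (hp1 i) (by omega))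
  · have h1 := hp4 l (by omega) (by rw [coeff_zero_form, if_neg (by omega)])
    rw [Nat.add_sub_cancel, coeff_one_form] at h1
    have h2 : (p l).coeff l = -(sgn l) := by exact_mod_cast h1
    simp only [coeff_C_mul]
    rw [h2, mul_neg, sgn_sq]
  · exact (natDegree_C_mul_le _ _).trans (hp1 0)
  · have h1 := hp3 0
    rw [coeff_zero_form, if_pos rfl] at h1
    have h2 : (p 0).coeff (l + 1) = sgn l := by exact_mod_cast h1
    simp only [coeff_C_mul]
    rw [h2, sgn_sq]
  · intro o τ
    have hD : (discriminant τ) ^ (l + 1) ≠ 0 := pow_ne_zero _ (discriminant_ne_zero τ)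
    have h1 := Psi_root o τ
    rw [Finset.sum_range_succ] at h1
    have h2 : fi l (l + 1) τ = (sgn l : ℂ) * (discriminant τ) ^ (l + 1) := form_top τ
    have h3 : ∀ i ∈ Finset.range (l + 1), fi l i τ * (jj (pt l o τ)) ^ i =
        (discriminant τ) ^ (l + 1) * (Polynomial.aeval (jj τ) (p i) * (jj (pt l o τ)) ^ i) := by
      intro i _
      have : fi l i τ = (discriminant τ) ^ (l + 1) * Polynomial.aeval (jj τ) (p i) := hp2 i τ
      rw [this]
      ring
    rw [Finset.sum_congr rfl h3, ← Finset.mul_sum, h2] at h1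
    have h4 : ∑ i ∈ Finset.range (l + 1), Polynomial.aeval (jj τ) (p i) * (jj (pt l o τ)) ^ i +
        (sgn l : ℂ) * (jj (pt l o τ)) ^ (l + 1) = 0 := by
      have h5 : (discriminant τ) ^ (l + 1) *
          (∑ i ∈ Finset.range (l + 1), Polynomial.aeval (jj τ) (p i) * (jj (pt l o τ)) ^ i +
            (sgn l : ℂ) * (jj (pt l o τ)) ^ (l + 1)) = 0 := by
        rw [← h1]
        ring
      exact (mul_eq_zero.mp h5).resolve_left hD
    have h6 : ∀ i ∈ Finset.range (l + 1),
        (Polynomial.aeval (jj τ) (C (sgn l) * p i)) * (jj (pt l o τ)) ^ i =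
        (sgn l : ℂ) * (Polynomial.aeval (jj τ) (p i) * (jj (pt l o τ)) ^ i) := by
      intro i _
      rw [map_mul, aeval_C]
      simp only [eq_intCast]
      ring
    rw [Finset.sum_congr rfl h6, ← Finset.mul_sum]
    linear_combination (sgn l : ℂ) * h4 - (jj (pt l o τ)) ^ (l + 1) * hsq

end Pool.Agent.Lib.ModPoly29
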