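import Pool.Agent.Lib.ModPoly29.QRing

/-!
# The modular forms `Ψ_i` of weight `12 (l + 1)`
-/

open UpperHalfPlane ModularForm ModularFormClass MatrixGroups EisensteinSeries Polynomial
open scoped Manifold

namespace Pool.Agent.Lib.ModPoly29

noncomputable section


/-- `E₄ ^ 3` as a modular form of weight `12` -/
def E4c : ModularForm 𝒮ℒ 12 := ModularForm.mcast (by norm_num) (E₄.pow 3)

lemma E4c_apply (τ : ℍ) : E4c τ = (E₄ τ) ^ 3 := by
  simp only [E4c, coe_mcast, ModularForm.coe_pow, Pi.pow_apply]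

lemma E4c_mem : qExpansion 1 E4c ∈ Zq := by
  simp only [E4c, coe_mcast]
  rw [ModularForm.qExpansion_pow one_pos one_mem_strictPeriods_SL]
  exact pow_mem E4q_mem 3

lemma E4c_coeff_zero : (qExpansion 1 E4c).coeff 0 = 1 := by
  simp only [E4c, coe_mcast]
  rw [ModularForm.qExpansion_pow one_pos one_mem_strictPeriods_SL,
    PowerSeries.coeff_zero_eq_constantCoeff_apply, map_pow,
    ← PowerSeries.coeff_zero_eq_constantCoeff_apply, E4q_coeff]
  simp

variable {l : ℕ} [NeZero l]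

/-- `Δ` at the point with index `o`, as an element of the ring `Rl l` -/
def Do (l : ℕ) [NeZero l] (o : Option (ZMod l)) : Rl l :=
  match o with
  | none => ⟨fun τ => CuspForm.discriminant (pt l none τ),
      (pt_none_mem (nice_of_form 12 CuspForm.discriminant)).1⟩
  | some b => ⟨fun τ => CuspForm.discriminant (pt l (some b) τ),
      (pt_some_mem (nice_of_form 12 CuspForm.discriminant) b).1⟩

/-- `E₄³` at the point with index `o` -/
def Ao (l : ℕ) [NeZero l] (o : Option (ZMod l)) : Rl l :=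
  match o with
  | none => ⟨fun τ => E4c (pt l none τ), (pt_none_mem (nice_of_form 12 E4c)).1⟩
  | some b => ⟨fun τ => E4c (pt l (some b) τ), (pt_some_mem (nice_of_form 12 E4c) b).1⟩

lemma Do_apply (o : Option (ZMod l)) (τ : ℍ) :
    ev l τ (Do l o) = CuspForm.discriminant (pt l o τ) := by
  cases o <;> rfl

lemma Ao_apply (o : Option (ZMod l)) (τ : ℍ) : ev l τ (Ao l o) = E4c (pt l o τ) := by
  cases o <;> rfl

/-- the polynomial `Ψ` -/
def Psi (l : ℕ) [NeZero l] : Polynomial (Rl l) := ∏ o, (C (Do l o) * X - C (Ao l o))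

lemma Psi_map (τ : ℍ) : (Psi l).map (ev l τ) =
    ∏ o, (C (CuspForm.discriminant (pt l o τ)) * X - C (E4c (pt l o τ))) := by
  unfold Psi
  rw [Polynomial.map_prod]
  refine Finset.prod_congr rfl fun o _ => ?_
  rw [Polynomial.map_sub, Polynomial.map_mul, map_C, map_C, map_X, Do_apply, Ao_apply]

lemma Psi_T (τ : ℍ) : (Psi l).map (ev l (ModularGroup.T • τ)) = (Psi l).map (ev l τ) := by
  rw [Psi_map, Psi_map]
  refine Fintype.prod_equiv (Equiv.optionCongr (Equiv.addRight (1 : ZMod l))) _ _ fun o => ?_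
  rw [f_T (k := 12) CuspForm.discriminant, f_T (k := 12) E4c]
  rfl

lemma prod_mu {l : ℕ} [Fact l.Prime] (k : ℤ) : ∏ o : Option (ZMod l), mu l k o = 1 := by
  have hl : (l : ℂ) ≠ 0 := by exact_mod_cast (Fact.out : l.Prime).ne_zero
  rw [Fintype.prod_option]
  simp only [mu]
  rw [Finset.prod_ite_eq' Finset.univ (0 : ZMod l), if_pos (Finset.mem_univ _)]
  exact inv_mul_cancel₀ (zpow_ne_zero _ hl)

lemma prod_sw {l : ℕ} [Fact l.Prime] {M : Type*} [CommMonoid M] (g : Option (ZMod l) → M) :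
    ∏ o, g (sw l o) = ∏ o, g o :=
  Function.Bijective.prod_comp (Function.Involutive.bijective sw_sw) g

lemma Psi_factor_S {l : ℕ} [Fact l.Prime] (τ : ℍ) (o : Option (ZMod l)) :
    (C (CuspForm.discriminant (pt l o (ModularGroup.S • τ))) * X -
        C (E4c (pt l o (ModularGroup.S • τ)))) =
      C (mu l 12 o) * (C ((τ : ℂ) ^ 12) *
        (C (CuspForm.discriminant (pt l (sw l o) τ)) * X - C (E4c (pt l (sw l o) τ)))) := by
  have e : (τ : ℂ) ^ (12 : ℤ) = (τ : ℂ) ^ (12 : ℕ) := by norm_cast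
  rw [f_S (k := 12) CuspForm.discriminant, f_S (k := 12) E4c, e, C_mul, C_mul, C_mul, C_mul]
  ring

lemma Psi_S {l : ℕ} [Fact l.Prime] (τ : ℍ) : (Psi l).map (ev l (ModularGroup.S • τ)) =
    C ((τ : ℂ) ^ (12 * (l + 1))) * (Psi l).map (ev l τ) := by
  rw [Psi_map, Psi_map, Finset.prod_congr rfl (fun o _ => Psi_factor_S τ o),
    Finset.prod_mul_distrib, Finset.prod_mul_distrib,
    prod_sw (fun o => (C (CuspForm.discriminant (pt l o τ)) * X - C (E4c (pt l o τ)))),
    ← map_prod, prod_mu, Finset.prod_const, Finset.card_univ, Fintype.card_option, ZMod.card,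
    ← C_pow, C_1, one_mul, ← pow_mul]

lemma slash_T_eq {f : ℍ → ℂ} (k : ℤ) (h : ∀ z, f (ModularGroup.T • z) = f z) :
    f ∣[k] ModularGroup.T = f := by
  ext z
  rw [SL_slash_apply, h]
  have : UpperHalfPlane.denom (ModularGroup.T : GL (Fin 2) ℝ) z = 1 := by
    rw [UpperHalfPlane.denom]
    simp [ModularGroup.coe_T]
  rw [this]
  simp

lemma slash_S_eq {f : ℍ → ℂ} (k : ℕ) (h : ∀ z : ℍ, f (ModularGroup.S • z) = (z : ℂ) ^ k * f z) :
    f ∣[(k : ℤ)] ModularGroup.S = f := by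
  ext z
  rw [SL_slash_apply, h]
  simp only [ModularGroup.denom_S]
  rw [zpow_neg, zpow_natCast]
  have : (z : ℂ) ≠ 0 := UpperHalfPlane.ne_zero z
  field_simp

/-- the coefficient functions -/
def fi (l : ℕ) [NeZero l] (i : ℕ) : ℍ → ℂ := ((Psi l).coeff i).1

lemma fi_apply (i : ℕ) (τ : ℍ) : fi l i τ = ((Psi l).map (ev l τ)).coeff i := by
  rw [coeff_map]
  rfl

lemma fi_T (i : ℕ) (τ : ℍ) : fi l i (ModularGroup.T • τ) = fi l i τ := by
  rw [fi_apply, fi_apply, Psi_T]

lemma fi_S {l : ℕ} [Fact l.Prime] (i : ℕ) (τ : ℍ) :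
    fi l i (ModularGroup.S • τ) = (τ : ℂ) ^ (12 * (l + 1)) * fi l i τ := by
  rw [fi_apply, fi_apply, Psi_S, coeff_C_mul]

lemma fi_slash {l : ℕ} [Fact l.Prime] (i : ℕ) (γ : SL(2, ℤ)) :
    (fi l i) ∣[((12 * (l + 1) : ℕ) : ℤ)] γ = fi l i :=
  SlashInvariantForm.slash_action_generators_SL2Z (slash_S_eq _ (fi_S i))
    (slash_T_eq _ (fi_T i)) γ

/-- `fi l i` as a modular form -/
def form (l : ℕ) [Fact l.Prime] (i : ℕ) : ModularForm 𝒮ℒ ((12 * (l + 1) : ℕ) : ℤ) where
  toFun := fi l i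
  slash_action_eq' := by
    rintro A ⟨A, rfl⟩
    exact fi_slash i A
  holo' := ((Psi l).coeff i).2.1
  bdd_at_cusps' hc := by
    rw [Subgroup.IsArithmetic.isCusp_iff_isCusp_SL2Z] at hc
    rw [OnePoint.isBoundedAt_iff_forall_SL2Z hc]
    intro γ _
    rw [fi_slash]
    exact ((Psi l).coeff i).2.2.2

lemma form_apply {l : ℕ} [Fact l.Prime] (i : ℕ) (τ : ℍ) : form l i τ = fi l i τ := rfl

end

end Pool.Agent.Lib.ModPoly29
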