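import Pool.Agent.Lib.ModPoly29.Norm

/-!
# The `l + 1` points `l τ`, `(τ + b) / l` and their behaviour under `S` and `T`
-/

open UpperHalfPlane ModularForm ModularFormClass MatrixGroups EisensteinSeries

namespace Pool.Agent.Lib.ModPoly29

noncomputable section

lemma level1_eq {F : Type*} [FunLike F ℍ ℂ] {k : ℤ} [SlashInvariantFormClass F 𝒮ℒ k] (f : F)
    (A : SL(2, ℤ)) (τ τ' : ℍ)
    (h : (τ' : ℂ) * ((A 1 0 : ℂ) * τ + (A 1 1 : ℂ)) = (A 0 0 : ℂ) * τ + (A 0 1 : ℂ)) :
    f τ' = ((A 1 0 : ℂ) * τ + (A 1 1 : ℂ)) ^ k * f τ := by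
  have hden : ((A 1 0 : ℂ) * τ + (A 1 1 : ℂ)) ≠ 0 := by
    have := UpperHalfPlane.denom_ne_zero (A : GL (Fin 2) ℝ) τ
    simpa [UpperHalfPlane.denom] using this
  have hτ : τ' = A • τ := by
    ext
    rw [UpperHalfPlane.coe_specialLinearGroup_apply]
    rw [eq_div_iff]
    · simpa using h
    · simpa using hden
  rw [hτ]
  have := SlashInvariantForm.slash_action_eqn' (Γ := 𝒮ℒ) f (γ := (A : GL (Fin 2) ℝ)) ⟨A, rfl⟩ τ
  simpa using this

/-- integral matrix with entries `a b c d` -/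
def mat (a b c d : ℤ) (h : a * d - b * c = 1) : SL(2, ℤ) :=
  ⟨!![a, b; c, d], by rw [Matrix.det_fin_two_of]; exact h⟩

lemma level1_eq' {F : Type*} [FunLike F ℍ ℂ] {k : ℤ} [SlashInvariantFormClass F 𝒮ℒ k] (f : F)
    (a b c d : ℤ) (hdet : a * d - b * c = 1) (τ τ' : ℍ)
    (h : (τ' : ℂ) * ((c : ℂ) * τ + (d : ℂ)) = (a : ℂ) * τ + (b : ℂ)) :
    f τ' = ((c : ℂ) * τ + (d : ℂ)) ^ k * f τ := by
  have := level1_eq f (mat a b c d hdet) τ τ' (by simpa [mat] using h)
  simpa [mat] using this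

variable {l : ℕ} [NeZero l]

/-- the points `l τ` (`none`) and `(τ + b) / l` (`some b`) -/
def pt (l : ℕ) [NeZero l] (o : Option (ZMod l)) (τ : ℍ) : ℍ :=
  match o with
  | none => ⟨(l : ℂ) * τ, by
      have h1 := τ.im_pos
      have h2 : (0 : ℝ) < l := by exact_mod_cast NeZero.pos l
      simp only [Complex.mul_im, Complex.natCast_re, Complex.natCast_im, zero_mul, add_zero,
        UpperHalfPlane.coe_im]
      positivity⟩
  | some b => ⟨((τ : ℂ) + (b.val : ℂ)) / l, by
      have h1 := τ.im_pos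
      have h2 : (0 : ℝ) < l := by exact_mod_cast NeZero.pos l
      rw [Complex.div_natCast_im]
      simp only [Complex.add_im, Complex.natCast_im, add_zero, UpperHalfPlane.coe_im]
      positivity⟩

@[simp] lemma coe_pt_none (τ : ℍ) : ((pt l none τ : ℍ) : ℂ) = l * τ := rfl

@[simp] lemma coe_pt_some (b : ZMod l) (τ : ℍ) :
    ((pt l (some b) τ : ℍ) : ℂ) = ((τ : ℂ) + (b.val : ℂ)) / l := rfl

lemma coe_S (τ : ℍ) : ((ModularGroup.S • τ : ℍ) : ℂ) = -1 / (τ : ℂ) := by
  rw [UpperHalfPlane.modular_S_smul]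
  change (-(τ : ℂ))⁻¹ = -1 / (τ : ℂ)
  rw [inv_neg, neg_div, one_div]

lemma coe_T (τ : ℍ) : ((ModularGroup.T • τ : ℍ) : ℂ) = (τ : ℂ) + 1 := by
  rw [UpperHalfPlane.modular_T_smul]
  simp [add_comm]

/-- translation by an integer -/
lemma f_add {F : Type*} [FunLike F ℍ ℂ] {k : ℤ} [SlashInvariantFormClass F 𝒮ℒ k] (f : F)
    (n : ℤ) (τ τ' : ℍ) (h : (τ' : ℂ) = τ + n) : f τ' = f τ := by
  have := level1_eq' f 1 n 0 1 (by ring) τ τ' (by rw [h]; push_cast; ring)
  simpa using this

lemma f_T {F : Type*} [FunLike F ℍ ℂ] {k : ℤ} [SlashInvariantFormClass F 𝒮ℒ k] (f : F)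
    (o : Option (ZMod l)) (τ : ℍ) :
    f (pt l o (ModularGroup.T • τ)) = f (pt l (o.map (· + 1)) τ) := by
  have hl : (l : ℂ) ≠ 0 := by exact_mod_cast NeZero.ne l
  cases o with
  | none =>
    apply f_add f (l : ℤ)
    simp only [Option.map_none, coe_pt_none, coe_T]
    push_cast
    ring
  | some b =>
    obtain ⟨q, hq⟩ : (l : ℤ) ∣ ((b.val : ℤ) + 1 - ((b + 1 : ZMod l).val : ℤ)) := by
      rw [← ZMod.intCast_zmod_eq_zero_iff_dvd]
      push_cast
      simp
    apply f_add f q
    simp only [Option.map_some, coe_pt_some, coe_T]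
    have hq' : ((b.val : ℂ) + 1 - ((b + 1 : ZMod l).val : ℂ)) = l * q := by exact_mod_cast hq
    field_simp
    linear_combination hq'

/-- the involution induced by `S` -/
def sw (l : ℕ) (o : Option (ZMod l)) : Option (ZMod l) :=
  match o with
  | none => some 0
  | some b => if b = 0 then none else some (-b⁻¹)

lemma sw_sw {l : ℕ} [Fact l.Prime] (o : Option (ZMod l)) : sw l (sw l o) = o := by
  cases o with
  | none => simp [sw]
  | some b =>
    by_cases hb : b = 0
    · simp [sw, hb]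
    · have : -b⁻¹ ≠ 0 := by simpa using hb
      simp [sw, hb]

/-- the factors occurring in the transformation under `S` -/
def mu (l : ℕ) (k : ℤ) (o : Option (ZMod l)) : ℂ :=
  match o with
  | none => ((l : ℂ) ^ k)⁻¹
  | some b => if b = 0 then (l : ℂ) ^ k else 1

lemma f_S {l : ℕ} [Fact l.Prime] {F : Type*} [FunLike F ℍ ℂ] {k : ℤ}
    [SlashInvariantFormClass F 𝒮ℒ k] (f : F) (o : Option (ZMod l)) (τ : ℍ) :
    f (pt l o (ModularGroup.S • τ)) = (mu l k o * (τ : ℂ) ^ k) * f (pt l (sw l o) τ) := by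
  have hl : (l : ℂ) ≠ 0 := by exact_mod_cast (Fact.out : l.Prime).ne_zero
  have hτ : (τ : ℂ) ≠ 0 := UpperHalfPlane.ne_zero τ
  cases o with
  | none =>
    have h := level1_eq' f 0 (-1) 1 0 (by ring) (pt l (some 0) τ)
      (pt l none (ModularGroup.S • τ)) (by
        rw [coe_pt_none, coe_pt_some, coe_S]
        simp
        field_simp)
    rw [h]
    simp only [mu, sw, coe_pt_some]
    congr 1
    simp [div_zpow]
    field_simp
  | some b =>
    by_cases hb : b = 0
    · subst hb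
      have h := level1_eq' f 0 (-1) 1 0 (by ring) (pt l none τ)
        (pt l (some 0) (ModularGroup.S • τ)) (by
          rw [coe_pt_none, coe_pt_some, coe_S]
          simp
          field_simp)
      rw [h]
      simp only [mu, sw, coe_pt_none, if_true]
      congr 1
      simp [mul_zpow]
    · have hb' : b * (-b⁻¹) + 1 = 0 := by
        rw [mul_neg, mul_inv_cancel₀ hb]; ring
      obtain ⟨m, hm⟩ : (l : ℤ) ∣ ((b.val : ℤ) * ((-b⁻¹ : ZMod l).val : ℤ) + 1) := by
        rw [← ZMod.intCast_zmod_eq_zero_iff_dvd]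
        push_cast
        simpa using hb'
      have hsw : sw l (some b) = some (-b⁻¹) := by simp only [sw, if_neg hb]
      have hmu : mu l k (some b) = 1 := by simp only [mu, if_neg hb]
      rw [hsw, hmu]
      generalize -b⁻¹ = b' at hb' hm
      have h := level1_eq' f (b.val : ℤ) (-m) (l : ℤ) (-((b' : ZMod l).val : ℤ))
        (by linear_combination (-1 : ℤ) * hm) (pt l (some b') τ)
        (pt l (some b) (ModularGroup.S • τ)) (by
          have hm' : ((b.val : ℂ) * ((b' : ZMod l).val : ℂ) + 1) = l * m := by exact_mod_cast hm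
          rw [coe_pt_some, coe_pt_some, coe_S]
          push_cast
          field_simp
          linear_combination (-(τ : ℂ)) * hm')
      rw [h]
      simp only [coe_pt_some]
      congr 1
      rw [one_mul]
      congr 1
      push_cast
      field_simp
      ring

end

end Pool.Agent.Lib.ModPoly29
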