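import Mathlib

/-!
# Level one modular forms with integral `q`-expansion

`exists_poly`: a modular form of weight `12 d` and level one whose `q`-expansion has integral
coefficients is `Δ ^ d` times an integral polynomial in `j = E₄ ^ 3 / Δ`.
-/

open UpperHalfPlane ModularForm ModularFormClass MatrixGroups EisensteinSeries

namespace Pool.Agent.Lib.ModPoly29

noncomputable section

/-- power series with integral coefficients -/
def Zq : Subring (PowerSeries ℂ) := (PowerSeries.map (Int.castRingHom ℂ)).range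

lemma mem_Zq {f : PowerSeries ℂ} : f ∈ Zq ↔ ∀ n, ∃ c : ℤ, f.coeff n = c := by
  constructor
  · rintro ⟨g, rfl⟩ n
    exact ⟨g.coeff n, by simp⟩
  · intro h
    choose c hc using h
    refine ⟨PowerSeries.mk c, ?_⟩
    ext n
    simp [hc n]

/-- the `j`-invariant -/
def jj (τ : ℍ) : ℂ := (E₄ τ) ^ 3 / discriminant τ


lemma E4q_coeff (m : ℕ) : ((qExpansion 1 (E₄ : ℍ → ℂ))).coeff m =
    if m = 0 then 1 else 240 * (ArithmeticFunction.sigma 3 m : ℂ) := by
  rw [E_qExpansion_coeff _ ⟨2, rfl⟩]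
  congr 1
  norm_num [show bernoulli 4 = -1 / 30 by decide +kernel]

lemma E6q_coeff (m : ℕ) : ((qExpansion 1 (E₆ : ℍ → ℂ))).coeff m =
    if m = 0 then 1 else -504 * (ArithmeticFunction.sigma 5 m : ℂ) := by
  rw [E_qExpansion_coeff _ ⟨3, rfl⟩]
  congr 1
  norm_num [show bernoulli 6 = 1 / 42 by decide +kernel]

/-- `∑ σ_k(n) q^n` -/
def Sq (k : ℕ) : PowerSeries ℂ := PowerSeries.mk fun m => if m = 0 then 0 else
  (ArithmeticFunction.sigma k m : ℂ)

lemma Sq_mem (k : ℕ) : Sq k ∈ Zq := by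
  rw [mem_Zq]
  intro n
  refine ⟨if n = 0 then 0 else (ArithmeticFunction.sigma k n : ℤ), ?_⟩
  simp only [Sq, PowerSeries.coeff_mk]
  split_ifs <;> simp

lemma E4q_eq : (qExpansion 1 (E₄ : ℍ → ℂ)) = 1 + 240 * Sq 3 := by
  ext m
  rw [E4q_coeff, map_add]
  have : (240 : PowerSeries ℂ) = PowerSeries.C (240 : ℂ) := (map_ofNat PowerSeries.C 240).symm
  rw [this, PowerSeries.coeff_C_mul, PowerSeries.coeff_one, Sq, PowerSeries.coeff_mk]
  split_ifs <;> simp

lemma E6q_eq : (qExpansion 1 (E₆ : ℍ → ℂ)) = 1 - 504 * Sq 5 := by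
  ext m
  rw [E6q_coeff, map_sub]
  have : (504 : PowerSeries ℂ) = PowerSeries.C (504 : ℂ) := (map_ofNat PowerSeries.C 504).symm
  rw [this, PowerSeries.coeff_C_mul, PowerSeries.coeff_one, Sq, PowerSeries.coeff_mk]
  split_ifs <;> simp

lemma E4q_mem : (qExpansion 1 (E₄ : ℍ → ℂ)) ∈ Zq := by
  rw [E4q_eq]
  exact add_mem (one_mem _) (mul_mem (by exact_mod_cast natCast_mem Zq 240) (Sq_mem 3))

lemma twelve_dvd (n : ℕ) : 12 ∣ 5 * ArithmeticFunction.sigma 3 n +
    7 * ArithmeticFunction.sigma 5 n := by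
  rw [ArithmeticFunction.sigma_apply, ArithmeticFunction.sigma_apply, Finset.mul_sum,
    Finset.mul_sum, ← Finset.sum_add_distrib]
  apply Finset.dvd_sum
  intro d _
  have h : ∀ x : ZMod 12, 5 * x ^ 3 + 7 * x ^ 5 = 0 := by decide
  have := h (d : ZMod 12)
  rw [← ZMod.natCast_eq_zero_iff]
  push_cast
  exact this

/-- the form `E₄³ - E₆²` -/
lemma disc_qExpansion : 1728 * (qExpansion 1 discriminant) = (qExpansion 1 (E₄ : ℍ → ℂ)) ^ 3 - (qExpansion 1 (E₆ : ℍ → ℂ)) ^ 2 := by
  have h1 : ((1728 : ℂ) • (CuspForm.discriminant : ℍ → ℂ)) =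
      (((ModularForm.mcast (by decide) (E₄.pow 3) : ModularForm 𝒮ℒ 12) -
        (ModularForm.mcast (by decide) (E₆.pow 2) : ModularForm 𝒮ℒ 12) :
          ModularForm 𝒮ℒ 12) : ℍ → ℂ) := by
    ext z
    have := discriminant_eq_E₄_cube_sub_E₆_sq z
    simp only [Pi.smul_apply, CuspForm.coe_discriminant, this, smul_eq_mul, sub_apply, coe_mcast,
      coe_pow, Pi.pow_apply]
    ring
  have h2 := ModularForm.qExpansion_smul (h := 1) one_pos one_mem_strictPeriods_SL (1728 : ℂ)
    CuspForm.discriminant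
  rw [h1, FunLike.coe_sub, ModularForm.qExpansion_sub one_pos one_mem_strictPeriods_SL,
    coe_mcast, coe_mcast, ModularForm.qExpansion_pow one_pos one_mem_strictPeriods_SL,
    ModularForm.qExpansion_pow one_pos one_mem_strictPeriods_SL] at h2
  rw [h2, CuspForm.coe_discriminant]
  ext m
  have : (1728 : PowerSeries ℂ) = PowerSeries.C (1728 : ℂ) := (map_ofNat PowerSeries.C 1728).symm
  rw [this, PowerSeries.coeff_C_mul, PowerSeries.coeff_smul, smul_eq_mul]

lemma Δq_mem : (qExpansion 1 discriminant) ∈ Zq := by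
  have h := disc_qExpansion
  rw [E4q_eq, E6q_eq] at h
  -- the series `(5 σ₃ + 7 σ₅) / 12`
  let U : PowerSeries ℂ := PowerSeries.mk fun m => if m = 0 then 0 else
    (((5 * ArithmeticFunction.sigma 3 m + 7 * ArithmeticFunction.sigma 5 m) / 12 : ℕ) : ℂ)
  have hU : U ∈ Zq := by
    rw [mem_Zq]
    intro n
    refine ⟨((if n = 0 then 0 else
      ((5 * ArithmeticFunction.sigma 3 n + 7 * ArithmeticFunction.sigma 5 n) / 12) : ℕ) : ℤ), ?_⟩
    simp only [U, PowerSeries.coeff_mk]
    split_ifs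
    · simp
    · exact (Int.cast_natCast _).symm
  have hU2 : 12 * U = 5 * Sq 3 + 7 * Sq 5 := by
    ext m
    have e1 : (12 : PowerSeries ℂ) = PowerSeries.C (12 : ℂ) := (map_ofNat PowerSeries.C 12).symm
    have e2 : (5 : PowerSeries ℂ) = PowerSeries.C (5 : ℂ) := (map_ofNat PowerSeries.C 5).symm
    have e3 : (7 : PowerSeries ℂ) = PowerSeries.C (7 : ℂ) := (map_ofNat PowerSeries.C 7).symm
    rw [map_add, e1, e2, e3, PowerSeries.coeff_C_mul, PowerSeries.coeff_C_mul,
      PowerSeries.coeff_C_mul]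
    simp only [U, Sq, PowerSeries.coeff_mk]
    split_ifs with hm
    · simp
    · obtain ⟨c, hc⟩ := twelve_dvd m
      rw [hc, Nat.mul_div_cancel_left c (by norm_num)]
      have : ((5 * ArithmeticFunction.sigma 3 m + 7 * ArithmeticFunction.sigma 5 m : ℕ) : ℂ) =
          12 * c := by rw [hc]; push_cast; ring
      push_cast at this
      rw [this]
  have h1 : (1728 : PowerSeries ℂ) * (qExpansion 1 discriminant) = 1728 * (U + 100 * Sq 3 ^ 2 + 8000 * Sq 3 ^ 3 -
      147 * Sq 5 ^ 2) := by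
    rw [h]
    linear_combination (-144 : PowerSeries ℂ) * hU2
  have h2 : (1728 : PowerSeries ℂ) ≠ 0 := by
    intro h0
    have := congrArg (PowerSeries.coeff 0) h0
    have e : (1728 : PowerSeries ℂ) = PowerSeries.C (1728 : ℂ) := (map_ofNat PowerSeries.C 1728).symm
    rw [e] at this
    simp at this
  have h3 := mul_left_cancel₀ h2 h1
  rw [h3]
  have hn : ∀ k : ℕ, (k : PowerSeries ℂ) ∈ Zq := fun k => natCast_mem Zq k
  have s3 := Sq_mem 3
  have s5 := Sq_mem 5
  have n1 : (100 : PowerSeries ℂ) ∈ Zq := by exact_mod_cast hn 100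
  have n2 : (8000 : PowerSeries ℂ) ∈ Zq := by exact_mod_cast hn 8000
  have n3 : (147 : PowerSeries ℂ) ∈ Zq := by exact_mod_cast hn 147
  exact sub_mem (add_mem (add_mem hU (mul_mem n1 (pow_mem s3 2))) (mul_mem n2 (pow_mem s3 3)))
    (mul_mem n3 (pow_mem s5 2))

lemma Δq_coeff_zero : ((qExpansion 1 discriminant)).coeff 0 = 0 := by
  simpa using CuspFormClass.qExpansion_coeff_zero CuspForm.discriminant one_pos
    one_mem_strictPeriods_SL

/-- dividing by a series `q + ...` -/
lemma mem_of_mul_mem {u v : PowerSeries ℂ} (hu : u ∈ Zq) (h0 : u.coeff 0 = 0)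
    (h1 : u.coeff 1 = 1) (huv : u * v ∈ Zq) : v ∈ Zq := by
  rw [mem_Zq] at hu huv ⊢
  intro n
  induction n using Nat.strong_induction_on with
  | _ n ih =>
    obtain ⟨c, hc⟩ := huv (n + 1)
    rw [PowerSeries.coeff_mul, Finset.Nat.sum_antidiagonal_eq_sum_range_succ_mk] at hc
    simp only at hc
    rw [Finset.sum_range_succ', Finset.sum_range_succ'] at hc
    simp only [h0, zero_mul, add_zero, zero_add, h1, one_mul, Nat.add_sub_cancel] at hc
    have h2 : ∀ i ∈ Finset.range n, ∃ c' : ℤ,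
        u.coeff (i + 1 + 1) * v.coeff (n + 1 - (i + 1 + 1)) = c' := by
      intro i hi
      rw [Finset.mem_range] at hi
      obtain ⟨a, ha⟩ := hu (i + 1 + 1)
      obtain ⟨b, hb⟩ := ih (n + 1 - (i + 1 + 1)) (by omega)
      exact ⟨a * b, by rw [ha, hb]; push_cast; ring⟩
    choose! g hg using h2
    refine ⟨c - ∑ i ∈ Finset.range n, g i, ?_⟩
    push_cast
    rw [← hc, Finset.sum_congr rfl hg]
    ring


lemma jj_mul (τ : ℍ) : discriminant τ * jj τ = (E₄ τ) ^ 3 := by
  unfold jj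
  rw [mul_div_cancel₀ _ (discriminant_ne_zero τ)]

/-- A level one form of weight `12 d` with integral `q`-expansion is `Δ ^ d` times an integral
polynomial in `j`. -/
theorem exists_poly (d : ℕ) : ∀ f : ModularForm 𝒮ℒ ((12 * d : ℕ) : ℤ), qExpansion 1 f ∈ Zq →
    ∃ p : Polynomial ℤ, p.natDegree ≤ d ∧
      (∀ τ, f τ = (discriminant τ) ^ d * Polynomial.aeval (jj τ) p) ∧
      ((p.coeff d : ℤ) : ℂ) = (qExpansion 1 f).coeff 0 ∧
      (1 ≤ d → (qExpansion 1 f).coeff 0 = 0 →
        ((p.coeff (d - 1) : ℤ) : ℂ) = (qExpansion 1 f).coeff 1) := by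
  induction d with
  | zero =>
    intro f hf
    obtain ⟨c, hc⟩ := levelOne_weight_zero_const (ModularForm.mcast (b := 0) (by simp) f)
    rw [coe_mcast] at hc
    have h1 : (f : ℍ → ℂ) = c • ((1 : ModularForm 𝒮ℒ 0) : ℍ → ℂ) := by
      rw [hc]
      ext z
      simp
    have h2 : qExpansion 1 f = c • (1 : PowerSeries ℂ) := by
      rw [h1, ModularForm.qExpansion_smul one_pos one_mem_strictPeriods_SL,
        ModularForm.qExpansion_one]
    have h3 : (qExpansion 1 f).coeff 0 = c := by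
      rw [h2, PowerSeries.coeff_smul]
      simp
    obtain ⟨m, hm⟩ := mem_Zq.mp hf 0
    rw [h3] at hm
    refine ⟨Polynomial.C m, by simp, fun τ => ?_, by rw [h3, hm]; simp, fun h => absurd h (by simp)⟩
    rw [hc]
    simp [hm]
  | succ d ih =>
    intro f hf
    obtain ⟨m, hm⟩ := mem_Zq.mp hf 0
    let E4p : ModularForm 𝒮ℒ ((12 * (d + 1) : ℕ) : ℤ) :=
      ModularForm.mcast (by push_cast; ring) (E₄.pow (3 * (d + 1)))
    have hE : (E4p : ℍ → ℂ) = (E₄ : ℍ → ℂ) ^ (3 * (d + 1)) := by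
      simp only [E4p, coe_mcast, ModularForm.coe_pow]
    have hEq : qExpansion 1 E4p = (qExpansion 1 (E₄ : ℍ → ℂ)) ^ (3 * (d + 1)) := by
      simp only [E4p, coe_mcast]
      rw [ModularForm.qExpansion_pow one_pos one_mem_strictPeriods_SL]
    have hE0 : (qExpansion 1 E4p).coeff 0 = 1 := by
      rw [hEq, PowerSeries.coeff_zero_eq_constantCoeff_apply, map_pow,
        ← PowerSeries.coeff_zero_eq_constantCoeff_apply, E4q_coeff]
      simp
    let g : ModularForm 𝒮ℒ ((12 * (d + 1) : ℕ) : ℤ) := f - (m : ℂ) • E4p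
    have hg : (g : ℍ → ℂ) = (f : ℍ → ℂ) - (m : ℂ) • (E4p : ℍ → ℂ) := rfl
    have hgq : qExpansion 1 g = qExpansion 1 f - (m : ℂ) • qExpansion 1 E4p := by
      have h1 := ModularForm.qExpansion_sub (h := 1) one_pos one_mem_strictPeriods_SL f
        ((m : ℂ) • E4p)
      have h2 := ModularForm.qExpansion_smul (h := 1) one_pos one_mem_strictPeriods_SL (m : ℂ) E4p
      rw [hg]
      exact h1.trans (by rw [← h2]; rfl)
    have hg0 : (qExpansion 1 g).coeff 0 = 0 := by
      rw [hgq, map_sub, PowerSeries.coeff_smul, hE0, hm]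
      simp
    have hmS : ∀ u ∈ Zq, (m : ℂ) • u ∈ Zq := by
      intro u hu
      rw [mem_Zq] at hu ⊢
      intro n
      obtain ⟨a, ha⟩ := hu n
      exact ⟨m * a, by rw [PowerSeries.coeff_smul, ha]; simp⟩
    have hgZ : qExpansion 1 g ∈ Zq := by
      rw [hgq]
      refine sub_mem hf (hmS _ ?_)
      rw [hEq]
      exact pow_mem E4q_mem _
    -- divide by `Δ`
    let h : ModularForm 𝒮ℒ ((12 * d : ℕ) : ℤ) :=
      ModularForm.mcast (by push_cast; ring) (CuspForm.discriminantEquiv (toCuspForm g hg0))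
    have hh : ∀ τ, g τ = discriminant τ * h τ := by
      intro τ
      have := ModularForm.discriminant_mul_discriminantEquiv_apply (toCuspForm g hg0) τ
      simp only [toCuspForm_apply] at this
      exact this.symm
    have hhq : qExpansion 1 g = (qExpansion 1 discriminant) * qExpansion 1 h :=
      qExpansion_eq_qExpansion_discriminant_mul g hg0
    have hhZ : qExpansion 1 h ∈ Zq :=
      mem_of_mul_mem Δq_mem Δq_coeff_zero discriminant_qExpansion_coeff_one (hhq ▸ hgZ)
    obtain ⟨p, hp1, hp2, hp3, -⟩ := ih h hhZ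
    refine ⟨p + Polynomial.C m * Polynomial.X ^ (d + 1), ?_, ?_, ?_, ?_⟩
    · apply Polynomial.natDegree_add_le_of_degree_le (by omega)
      exact (Polynomial.natDegree_C_mul_X_pow_le m (d + 1))
    · intro τ
      have h1 : f τ = g τ + m * (E₄ τ) ^ (3 * (d + 1)) := by
        have : g τ = f τ - m * (E4p : ℍ → ℂ) τ := by rw [hg]; rfl
        rw [this, hE]
        simp
      rw [h1, hh τ, hp2 τ, map_add, map_mul, map_pow, Polynomial.aeval_X, Polynomial.aeval_C,
        pow_mul, ← jj_mul]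
      simp only [eq_intCast]
      ring
    · rw [Polynomial.coeff_add, Polynomial.coeff_C_mul_X_pow, if_pos rfl,
        Polynomial.coeff_eq_zero_of_natDegree_lt (by omega), zero_add, hm]
    · intro _ h0
      have hm0 : m = 0 := by
        rw [h0] at hm
        exact_mod_cast hm.symm
      rw [hm0]
      simp only [map_zero, zero_mul, add_zero, Nat.add_sub_cancel]
      rw [hp3]
      have h1 : qExpansion 1 f = (qExpansion 1 discriminant) * qExpansion 1 h := by
        rw [← hhq, hgq, hm0]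
        simp
      rw [h1, PowerSeries.coeff_mul, Finset.Nat.sum_antidiagonal_eq_sum_range_succ_mk]
      simp only
      rw [Finset.sum_range_succ, Finset.sum_range_one, Δq_coeff_zero,
        discriminant_qExpansion_coeff_one]
      simp

end

end Pool.Agent.Lib.ModPoly29
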