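import Pool.Agent.Lib.ModPoly29.ModEq

/-!
# Valuations of `j`-invariants in an isogeny class, and of singular moduli
-/

open Polynomial UpperHalfPlane MatrixGroups

namespace Pool.Agent.Lib.ModPoly29

section val

variable {K : Type*} [Field K] {Γ₀ : Type*} [LinearOrderedCommGroupWithZero Γ₀]
  (v : Valuation K Γ₀)

lemma val_nat_le (n : ℕ) : v (n : K) ≤ 1 := by
  induction n with
  | zero => simp
  | succ n ih =>
    push_cast
    exact (v.map_add _ _).trans (max_le ih (by simp))

lemma val_int_le (n : ℤ) : v (n : K) ≤ 1 := by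
  cases n with
  | ofNat n => simpa using val_nat_le v n
  | negSucc n =>
    rw [Int.cast_negSucc, Valuation.map_neg]
    exact val_nat_le v (n + 1)

lemma val_aeval_le (p : ℤ[X]) (x : K) (hx : 1 ≤ v x) {n : ℕ} (hp : p.natDegree ≤ n) :
    v (aeval x p) ≤ v x ^ n := by
  rw [aeval_eq_sum_range' (Nat.lt_succ_of_le hp)]
  apply v.map_sum_le
  intro i hi
  rw [Finset.mem_range] at hi
  rw [zsmul_eq_mul, map_mul, map_pow]
  calc v ((p.coeff i : ℤ) : K) * v x ^ i ≤ 1 * v x ^ n := by
        apply mul_le_mul' (val_int_le v _)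
        exact pow_le_pow_right₀ hx (by omega)
    _ = v x ^ n := one_mul _

lemma val_aeval_eq (p : ℤ[X]) (x : K) (hx : 1 < v x) {n : ℕ} (hp : p.natDegree ≤ n)
    (hc : v ((p.coeff n : ℤ) : K) = 1) : v (aeval x p) = v x ^ n := by
  have hx0 : 0 < v x := lt_trans zero_lt_one hx
  rw [aeval_eq_sum_range' (Nat.lt_succ_of_le hp), Finset.sum_range_succ]
  have h1 : v (p.coeff n • x ^ n) = v x ^ n := by
    rw [zsmul_eq_mul, map_mul, map_pow, hc, one_mul]
  have h2 : v (∑ i ∈ Finset.range n, p.coeff i • x ^ i) < v x ^ n := by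
    apply v.map_sum_lt (pow_ne_zero _ hx0.ne')
    intro i hi
    rw [Finset.mem_range] at hi
    rw [zsmul_eq_mul, map_mul, map_pow]
    calc v ((p.coeff i : ℤ) : K) * v x ^ i ≤ 1 * v x ^ i :=
          mul_le_mul' (val_int_le v _) le_rfl
      _ = v x ^ i := one_mul _
      _ < v x ^ n := pow_lt_pow_right₀ hx hi
  rw [Valuation.map_add_eq_of_lt_right v (by rw [h1]; exact h2), h1]

/-- The Newton polygon of the modular equation. -/
theorem newton {l : ℕ} (hl : 1 ≤ l) {a : ℕ → ℤ[X]}
    (h1 : ∀ i, 1 ≤ i → i ≤ l → (a i).natDegree ≤ l) (h2 : (a l).coeff l = -1)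
    (h3 : (a 0).natDegree ≤ l + 1) (h4 : (a 0).coeff (l + 1) = 1) {x y : K}
    (h : y ^ (l + 1) + ∑ i ∈ Finset.range (l + 1), (aeval x (a i)) * y ^ i = 0)
    (hx : 1 < v x) : v y = v x ^ l ∨ v y ^ l = v x := by
  have hx0 : 0 < v x := lt_trans zero_lt_one hx
  have hXl : 1 < v x ^ l := one_lt_pow₀ hx (by omega)
  have hXl0 : 0 < v x ^ l := lt_trans zero_lt_one hXl
  have hA0 : v (aeval x (a 0)) = v x ^ (l + 1) := val_aeval_eq v _ x hx h3 (by rw [h4]; simp)
  have hAl : v (aeval x (a l)) = v x ^ l := val_aeval_eq v _ x hx (h1 l hl le_rfl)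
    (by rw [h2]; simp)
  have hAi : ∀ i, 1 ≤ i → i ≤ l → v (aeval x (a i)) ≤ v x ^ l := fun i hi hil =>
    val_aeval_le v _ x hx.le (h1 i hi hil)
  by_contra hcon
  push Not at hcon
  obtain ⟨hne1, hne2⟩ := hcon
  rcases lt_or_gt_of_ne hne1 with hlt | hgt
  · -- `v y < v x ^ l`
    rcases lt_or_gt_of_ne hne2 with hlt2 | hgt2
    · -- the constant term dominates
      have ht0 : v (aeval x (a 0) * y ^ 0) = v x ^ (l + 1) := by simp [hA0]
      have key : ∀ i, 1 ≤ i → i ≤ l → v x ^ l * v y ^ i < v x ^ (l + 1) := by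
        intro i hi hil
        rw [pow_succ]
        apply mul_lt_mul_of_pos_left _ hXl0
        rcases le_or_gt (v y) 1 with hy1 | hy1
        · exact lt_of_le_of_lt (pow_le_one' hy1 i) hx
        · exact lt_of_le_of_lt (pow_le_pow_right₀ hy1.le hil) hlt2
      have hrest : v (y ^ (l + 1) + ∑ i ∈ Finset.range l, (aeval x (a (i + 1))) * y ^ (i + 1)) <
          v x ^ (l + 1) := by
        apply lt_of_le_of_lt (v.map_add _ _)
        apply max_lt
        · rw [map_pow, pow_succ, mul_comm]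
          calc v y * v y ^ l ≤ v x ^ l * v y ^ l := mul_le_mul' hlt.le le_rfl
            _ < v x ^ (l + 1) := key l hl le_rfl
        · apply v.map_sum_lt (pow_ne_zero _ hx0.ne')
          intro i hi
          rw [Finset.mem_range] at hi
          rw [map_mul, map_pow]
          exact lt_of_le_of_lt (mul_le_mul' (hAi (i + 1) (by omega) (by omega)) le_rfl)
            (key (i + 1) (by omega) (by omega))
      rw [Finset.sum_range_succ', ← add_assoc] at h
      have := Valuation.map_add_eq_of_lt_right v (x := y ^ (l + 1) +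
        ∑ i ∈ Finset.range l, (aeval x (a (i + 1))) * y ^ (i + 1)) (y := aeval x (a 0) * y ^ 0)
        (by rw [ht0]; exact hrest)
      rw [h, ht0, map_zero] at this
      exact (pow_ne_zero _ hx0.ne') this.symm
    · -- the term with index `l` dominates
      have hy1 : 1 < v y := by
        by_contra hy
        push Not at hy
        exact absurd (lt_of_lt_of_le (lt_trans hx hgt2) (pow_le_one' hy l)) (lt_irrefl _)
      have hy0 : 0 < v y := lt_trans zero_lt_one hy1
      have hM0 : 0 < v x ^ l * v y ^ l := mul_pos hXl0 (pow_pos hy0 l)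
      have htl : v (aeval x (a l) * y ^ l) = v x ^ l * v y ^ l := by
        rw [map_mul, map_pow, hAl]
      have hrest : v (y ^ (l + 1) + ∑ i ∈ Finset.range l, (aeval x (a i)) * y ^ i) <
          v x ^ l * v y ^ l := by
        apply lt_of_le_of_lt (v.map_add _ _)
        apply max_lt
        · rw [map_pow, pow_succ, mul_comm]
          exact mul_lt_mul_of_pos_right hlt (pow_pos hy0 l)
        · apply v.map_sum_lt hM0.ne'
          intro i hi
          rw [Finset.mem_range] at hi
          rw [map_mul, map_pow]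
          by_cases hi0 : i = 0
          · rw [hi0, hA0, pow_zero, mul_one, pow_succ]
            exact mul_lt_mul_of_pos_left hgt2 hXl0
          · calc v (aeval x (a i)) * v y ^ i ≤ v x ^ l * v y ^ i :=
                  mul_le_mul' (hAi i (by omega) (by omega)) le_rfl
              _ < v x ^ l * v y ^ l := by
                  apply mul_lt_mul_of_pos_left _ hXl0
                  exact pow_lt_pow_right₀ hy1 hi
      rw [Finset.sum_range_succ, ← add_assoc] at h
      have := Valuation.map_add_eq_of_lt_right v (x := y ^ (l + 1) +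
        ∑ i ∈ Finset.range l, (aeval x (a i)) * y ^ i) (y := aeval x (a l) * y ^ l)
        (by rw [htl]; exact hrest)
      rw [h, htl, map_zero] at this
      exact hM0.ne' this.symm
  · -- `v y > v x ^ l`
    have hy1 : 1 < v y := lt_trans hXl hgt
    have hy0 : 0 < v y := lt_trans zero_lt_one hy1
    have hrest : v (∑ i ∈ Finset.range (l + 1), (aeval x (a i)) * y ^ i) < v (y ^ (l + 1)) := by
      rw [map_pow]
      apply v.map_sum_lt (pow_ne_zero _ hy0.ne')
      intro i hi
      rw [Finset.mem_range] at hi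
      rw [map_mul, map_pow]
      by_cases hi0 : i = 0
      · rw [hi0, hA0, pow_zero, mul_one]
        have hxy : v x < v y := lt_of_le_of_lt (le_self_pow₀ hx.le (by omega)) hgt
        exact pow_lt_pow_left₀ hxy hx0.le (by omega)
      · calc v (aeval x (a i)) * v y ^ i ≤ v x ^ l * v y ^ i :=
              mul_le_mul' (hAi i (by omega) (by omega)) le_rfl
          _ < v y * v y ^ i := mul_lt_mul_of_pos_right hgt (pow_pos hy0 i)
          _ = v y ^ (i + 1) := by rw [pow_succ, mul_comm]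
          _ ≤ v y ^ (l + 1) := pow_le_pow_right₀ hy1.le (by omega)
    have := Valuation.map_add_eq_of_lt_left v hrest
    rw [h, map_zero, map_pow] at this
    exact (pow_ne_zero _ hy0.ne') this.symm

end val

/-! ### Isogeny chains -/

lemma jj_eq_of_sl (a b c d : ℤ) (hdet : a * d - b * c = 1) (τ τ' : ℍ)
    (h : (τ' : ℂ) * ((c : ℂ) * τ + (d : ℂ)) = (a : ℂ) * τ + (b : ℂ)) : jj τ' = jj τ := by
  have h1 := level1_eq' (k := 12) CuspForm.discriminant a b c d hdet τ τ' h
  have h2 := level1_eq' (k := 12) E4c a b c d hdet τ τ' h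
  rw [E4c_apply, E4c_apply] at h2
  rw [CuspForm.coe_discriminant] at h1
  have hne : ((c : ℂ) * τ + (d : ℂ)) ^ (12 : ℤ) ≠ 0 := by
    intro h0
    rw [h0, zero_mul] at h1
    exact ModularForm.discriminant_ne_zero τ' h1
  unfold jj
  rw [h1, h2, mul_div_mul_left _ _ hne]

variable {Γ₀ : Type*} [LinearOrderedCommGroupWithZero Γ₀] (v : Valuation ℂ Γ₀)

/-- one step `τ ↦ l τ` -/
lemma val_step (l : ℕ) [Fact l.Prime] (τ : ℍ) (hv : 1 < v (jj τ)) :
    v (jj (pt l none τ)) = v (jj τ) ^ l ∨ v (jj (pt l none τ)) ^ l = v (jj τ) := by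
  obtain ⟨a, h1, h2, h3, h4, h5⟩ := modular_equation l
  exact newton v (Fact.out : l.Prime).one_le h1 h2 h3 h4 (h5 none τ) hv

/-- a primitive vector in the kernel of an integral matrix modulo a prime dividing the
determinant -/
lemma exists_primitive {l : ℕ} (hl : l.Prime) (a b c d : ℤ) (hdet : (l : ℤ) ∣ a * d - b * c) :
    ∃ p q r s : ℤ, p * s - r * q = 1 ∧ (l : ℤ) ∣ a * p + b * q ∧ (l : ℤ) ∣ c * p + d * q := by
  have hlp : Prime (l : ℤ) := Nat.prime_iff_prime_int.mp hl
  -- a vector which is nonzero modulo `l`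
  obtain ⟨p₀, q₀, hne, h1, h2⟩ : ∃ p₀ q₀ : ℤ, ¬ ((l : ℤ) ∣ p₀ ∧ (l : ℤ) ∣ q₀) ∧
      (l : ℤ) ∣ a * p₀ + b * q₀ ∧ (l : ℤ) ∣ c * p₀ + d * q₀ := by
    by_cases hab : (l : ℤ) ∣ a ∧ (l : ℤ) ∣ b
    · by_cases hcd : (l : ℤ) ∣ c ∧ (l : ℤ) ∣ d
      · refine ⟨1, 0, ?_, ?_, ?_⟩
        · rintro ⟨h, _⟩
          exact hlp.not_dvd_one h
        · simpa using hab.1
        · simpa using hcd.1
      · refine ⟨d, -c, ?_, ?_, ?_⟩
        · rintro ⟨h, h'⟩
          exact hcd ⟨(dvd_neg.mp h'), h⟩
        · have : a * d + b * (-c) = a * d - b * c := by ring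
          rw [this]; exact hdet
        · have : c * d + d * (-c) = 0 := by ring
          rw [this]; exact dvd_zero _
    · refine ⟨b, -a, ?_, ?_, ?_⟩
      · rintro ⟨h, h'⟩
        exact hab ⟨(dvd_neg.mp h'), h⟩
      · have : a * b + b * (-a) = 0 := by ring
        rw [this]; exact dvd_zero _
      · have : c * b + d * (-a) = -(a * d - b * c) := by ring
        rw [this]; exact (dvd_neg.mpr hdet)
  -- divide by the gcd
  have hne0 : p₀ ≠ 0 ∨ q₀ ≠ 0 := by
    by_contra hcon
    push Not at hcon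
    exact hne ⟨hcon.1 ▸ dvd_zero _, hcon.2 ▸ dvd_zero _⟩
  set g := Int.gcd p₀ q₀ with hg
  have hg0 : 0 < g := by
    rw [hg, Int.gcd_pos_iff]
    exact hne0
  obtain ⟨p, hp⟩ : (g : ℤ) ∣ p₀ := Int.gcd_dvd_left _ _
  obtain ⟨q, hq⟩ : (g : ℤ) ∣ q₀ := Int.gcd_dvd_right _ _
  have hgl : ¬ (l : ℤ) ∣ (g : ℤ) := by
    intro h
    exact hne ⟨h.trans (Int.gcd_dvd_left _ _), h.trans (Int.gcd_dvd_right _ _)⟩
  have hbez : (g : ℤ) = p₀ * Int.gcdA p₀ q₀ + q₀ * Int.gcdB p₀ q₀ := Int.gcd_eq_gcd_ab _ _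
  refine ⟨p, q, -(Int.gcdB p₀ q₀), Int.gcdA p₀ q₀, ?_, ?_, ?_⟩
  · have hgz : (g : ℤ) ≠ 0 := by exact_mod_cast hg0.ne'
    apply mul_left_cancel₀ hgz
    calc (g : ℤ) * (p * Int.gcdA p₀ q₀ - -(Int.gcdB p₀ q₀) * q)
        = (g * p) * Int.gcdA p₀ q₀ + (g * q) * Int.gcdB p₀ q₀ := by ring
      _ = p₀ * Int.gcdA p₀ q₀ + q₀ * Int.gcdB p₀ q₀ := by rw [← hp, ← hq]
      _ = g * 1 := by rw [← hbez, mul_one]
  · have : (l : ℤ) ∣ g * (a * p + b * q) := by
      have e : (g : ℤ) * (a * p + b * q) = a * p₀ + b * q₀ := by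
        calc (g : ℤ) * (a * p + b * q) = a * (g * p) + b * (g * q) := by ring
          _ = a * p₀ + b * q₀ := by rw [← hp, ← hq]
      rw [e]; exact h1
    exact (hlp.dvd_or_dvd this).resolve_left hgl
  · have : (l : ℤ) ∣ g * (c * p + d * q) := by
      have e : (g : ℤ) * (c * p + d * q) = c * p₀ + d * q₀ := by
        calc (g : ℤ) * (c * p + d * q) = c * (g * p) + d * (g * q) := by ring
          _ = c * p₀ + d * q₀ := by rw [← hp, ← hq]
      rw [e]; exact h2
    exact (hlp.dvd_or_dvd this).resolve_left hgl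

lemma denom_ne (A : SL(2, ℤ)) (τ : ℍ) : ((A 1 0 : ℂ) * τ + (A 1 1 : ℂ)) ≠ 0 := by
  have := UpperHalfPlane.denom_ne_zero (A : GL (Fin 2) ℝ) τ
  simpa [UpperHalfPlane.denom] using this

/-- the action of the inverse of `[p r; q s]` -/
lemma exists_inv (p q r s : ℤ) (h : p * s - r * q = 1) (τ : ℍ) :
    ∃ σ : ℍ, jj σ = jj τ ∧ (q : ℂ) * σ + s ≠ 0 ∧
      (τ : ℂ) * ((q : ℂ) * σ + s) = (p : ℂ) * σ + r := by
  have hdet : s * p - (-r) * (-q) = 1 := by linear_combination h
  let A : SL(2, ℤ) := mat s (-r) (-q) p hdet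
  have hne : ((-q : ℤ) : ℂ) * τ + (p : ℂ) ≠ 0 := by
    have := denom_ne A τ
    simpa [A, mat] using this
  have hσ : ((A • τ : ℍ) : ℂ) * (((-q : ℤ) : ℂ) * τ + (p : ℂ)) = (s : ℂ) * τ + ((-r : ℤ) : ℂ) := by
    rw [UpperHalfPlane.coe_specialLinearGroup_apply]
    rw [div_mul_eq_mul_div, div_eq_iff]
    · simp [A, mat]
    · simpa [A, mat] using hne
  have h' : (p : ℂ) * s - r * q = 1 := by exact_mod_cast h
  push_cast at hσ hne
  have hkey : ((q : ℂ) * ((A • τ : ℍ) : ℂ) + s) * (-(q : ℂ) * τ + p) = 1 := by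
    linear_combination (q : ℂ) * hσ + h'
  refine ⟨A • τ, ?_, ?_, ?_⟩
  · exact jj_eq_of_sl s (-r) (-q) p hdet τ (A • τ) (by push_cast; exact hσ)
  · intro h0
    rw [h0, zero_mul] at hkey
    exact zero_ne_one hkey
  · apply mul_right_cancel₀ hne
    linear_combination (τ : ℂ) * hkey - (p : ℂ) * hσ - (τ : ℂ) * h'

/-- **Valuations of the `j`-invariants of isogenous elliptic curves.** -/
theorem val_isogeny (N : ℕ) : ∀ (a b c d : ℤ) (τ τ' : ℍ), a * d - b * c = N → 0 < N →
    (τ' : ℂ) * ((c : ℂ) * τ + (d : ℂ)) = (a : ℂ) * τ + (b : ℂ) → 1 < v (jj τ) →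
    ∃ A B : ℕ, A * B = N ∧ v (jj τ') ^ B = v (jj τ) ^ A := by
  induction N using Nat.strong_induction_on with
  | _ N ih =>
    intro a b c d τ τ' hdet hN h hv
    by_cases hN1 : N = 1
    · refine ⟨1, 1, by omega, ?_⟩
      rw [jj_eq_of_sl a b c d (by rw [hdet, hN1]; rfl) τ τ' h]
    · -- a prime divisor of `N`
      obtain ⟨l, hl, hlN⟩ := Nat.exists_prime_and_dvd hN1
      have : Fact l.Prime := ⟨hl⟩
      have hlN' : (l : ℤ) ∣ a * d - b * c := by rw [hdet]; exact_mod_cast hlN
      obtain ⟨M, hM⟩ := hlN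
      have hM0 : 0 < M := by
        rcases Nat.eq_zero_or_pos M with h0 | h0
        · rw [h0, mul_zero] at hM; omega
        · exact h0
      have hMN : M < N := by
        rw [hM]
        exact lt_mul_of_one_lt_left hM0 hl.one_lt
      obtain ⟨p, q, r, s, hpq, ⟨a', ha'⟩, ⟨c', hc'⟩⟩ := exists_primitive hl a b c d hlN'
      obtain ⟨σ, hσ1, hσ2, hσ3⟩ := exists_inv p q r s hpq τ
      have hvσ : 1 < v (jj σ) := by rw [hσ1]; exact hv
      have hstep := val_step v l σ hvσ
      -- the remaining matrix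
      have hdet' : a' * (c * r + d * s) - (a * r + b * s) * c' = M := by
        have hl0 : (l : ℤ) ≠ 0 := by exact_mod_cast hl.ne_zero
        apply mul_left_cancel₀ hl0
        have e1 : (l : ℤ) * (M : ℤ) = a * d - b * c := by rw [hdet, hM]; push_cast; ring
        rw [e1]
        calc (l : ℤ) * (a' * (c * r + d * s) - (a * r + b * s) * c')
            = (l * a') * (c * r + d * s) - (a * r + b * s) * (l * c') := by ring
          _ = (a * p + b * q) * (c * r + d * s) - (a * r + b * s) * (c * p + d * q) := by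
              rw [← ha', ← hc']
          _ = (a * d - b * c) * (p * s - r * q) := by ring
          _ = a * d - b * c := by rw [hpq, mul_one]
      have ha'' : (a : ℂ) * p + b * q = l * a' := by exact_mod_cast ha'
      have hc'' : (c : ℂ) * p + d * q = l * c' := by exact_mod_cast hc'
      have hrel : (τ' : ℂ) * ((c' : ℂ) * (pt l none σ : ℍ) + ((c * r + d * s : ℤ) : ℂ)) =
          (a' : ℂ) * (pt l none σ : ℍ) + ((a * r + b * s : ℤ) : ℂ) := by
        rw [coe_pt_none]
        push_cast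
        have e1 : (c' : ℂ) * (l * σ) + (c * r + d * s) = ((q : ℂ) * σ + s) * (c * τ + d) := by
          linear_combination (-(σ : ℂ)) * hc'' - (c : ℂ) * hσ3
        have e2 : (a' : ℂ) * (l * σ) + (a * r + b * s) = ((q : ℂ) * σ + s) * (a * τ + b) := by
          linear_combination (-(σ : ℂ)) * ha'' - (a : ℂ) * hσ3
        rw [e1, e2]
        linear_combination ((q : ℂ) * σ + s) * h
      have hv1 : 1 < v (jj (pt l none σ)) := by
        rcases hstep with h1 | h1
        · rw [h1]; exact one_lt_pow₀ hvσ hl.ne_zero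
        · by_contra hcon
          push Not at hcon
          rw [← h1] at hvσ
          exact absurd (lt_of_lt_of_le hvσ (pow_le_one' hcon l)) (lt_irrefl _)
      obtain ⟨A, B, hAB, hAB2⟩ := ih M hMN a' (a * r + b * s) c' (c * r + d * s) (pt l none σ) τ'
        hdet' hM0 hrel hv1
      rcases hstep with h1 | h1
      · refine ⟨l * A, B, by rw [hM, ← hAB]; ring, ?_⟩
        rw [hAB2, h1, hσ1, pow_mul]
      · refine ⟨A, B * l, by rw [hM, ← hAB]; ring, ?_⟩
        rw [pow_mul, hAB2, ← pow_mul, mul_comm A l, pow_mul, h1, hσ1]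

/-- a positive definite form of the shape `x² - b x + m` represents a non-square -/
lemma exists_nonsquare (b m : ℤ) (h : 0 < 4 * m - b ^ 2) :
    ∃ x : ℤ, 0 < x ^ 2 - b * x + m ∧ ¬ IsSquare (x ^ 2 - b * x + m) := by
  set D := 4 * m - b ^ 2 with hD
  -- take `2 x - b > D`
  refine ⟨|b| + D, ?_, ?_⟩
  · have h1 : 4 * ((|b| + D) ^ 2 - b * (|b| + D) + m) = (2 * (|b| + D) - b) ^ 2 + D := by
      rw [hD]; ring
    nlinarith [sq_nonneg (2 * (|b| + D) - b)]
  · rintro ⟨k, hk⟩
    have hb : b ≤ |b| := le_abs_self b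
    have hb0 : 0 ≤ |b| := abs_nonneg b
    set y := 2 * (|b| + D) - b with hy
    have hyD : D < y := by rw [hy]; linarith
    have h1 : (2 * |k|) ^ 2 = y ^ 2 + D := by
      have e : (2 * |k|) ^ 2 = 4 * (k * k) := by rw [mul_pow, sq_abs]; ring
      rw [e, ← hk, hy, hD]
      ring
    have hy0 : 0 < y := by linarith
    have hlt : y < 2 * |k| := by
      nlinarith [abs_nonneg k]
    nlinarith

/-- **Singular moduli are integral** at every valuation. -/
theorem val_cm (τ : ℍ) (a b c : ℤ) (ha : a ≠ 0) (h : (a : ℂ) * τ ^ 2 + b * τ + c = 0) :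
    v (jj τ) ≤ 1 := by
  by_contra hcon
  push Not at hcon
  -- the discriminant is negative
  have hdisc : 0 < 4 * (a * c) - b ^ 2 := by
    have him := τ.im_pos
    have h1 := congrArg Complex.im h
    have h2 := congrArg Complex.re h
    have haR : (a : ℝ) ≠ 0 := by exact_mod_cast ha
    simp only [Complex.add_im, Complex.mul_im, Complex.intCast_re, Complex.intCast_im, zero_mul,
      add_zero, pow_two, Complex.zero_im, Complex.add_re, Complex.mul_re, sub_zero,
      Complex.zero_re, UpperHalfPlane.coe_re, UpperHalfPlane.coe_im] at h1 h2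
    have h3 : 2 * (a : ℝ) * τ.re + b = 0 := by
      have : τ.im * (2 * (a : ℝ) * τ.re + b) = 0 := by linear_combination h1
      exact (mul_eq_zero.mp this).resolve_left him.ne'
    have h4 : 4 * ((a : ℝ) * c) - b ^ 2 = (2 * a * τ.im) ^ 2 := by
      have h5 : (b : ℝ) = -(2 * a * τ.re) := by linarith
      rw [h5] at h2 ⊢
      linear_combination (4 * (a : ℝ)) * h2
    have h6 : (0 : ℝ) < 4 * ((a : ℝ) * c) - b ^ 2 := by
      rw [h4]
      have : 2 * (a : ℝ) * τ.im ≠ 0 := by positivity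
      positivity
    exact_mod_cast h6
  obtain ⟨x, hx0, hxsq⟩ := exists_nonsquare b (a * c) hdisc
  obtain ⟨N, hN⟩ := Int.eq_ofNat_of_zero_le hx0.le
  have hN0 : 0 < N := by
    have : (0 : ℤ) < N := by rw [← hN]; exact hx0
    exact_mod_cast this
  -- the matrix of multiplication by `x + a τ`
  obtain ⟨A, B, hAB, hAB2⟩ := val_isogeny v N (x - b) (-c) a x τ τ
    (by rw [← hN]; ring) hN0 (by push_cast; linear_combination h) hcon
  have hne : A ≠ B := by
    rintro rfl
    apply hxsq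
    rw [hN, ← hAB]
    exact ⟨A, by push_cast; rfl⟩
  have hinj := (pow_right_strictMono₀ hcon).injective
  exact hne (hinj hAB2).symm

end Pool.Agent.Lib.ModPoly29
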