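import Pool.Agent.Lib.ModPoly29.Integral

/-!
# Products over the roots of unity have integral coefficients
-/

open Finset

namespace Pool.Agent.Lib.ModPoly29

noncomputable section

section general

variable {σ : Type} [Fintype σ] [DecidableEq σ]

lemma map_rescale {R S : Type*} [CommRing R] [CommRing S] (f : R →+* S) (a : R)
    (p : PowerSeries R) : PowerSeries.map f (PowerSeries.rescale a p) =
      PowerSeries.rescale (f a) (PowerSeries.map f p) := by
  ext n
  simp [PowerSeries.coeff_rescale]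

/-- the universal product `∏ (d(x_b r) X - a(x_b r))` -/
def univ (σ : Type) [Fintype σ] [DecidableEq σ] (a d : PowerSeries ℤ) :
    Polynomial (PowerSeries (MvPolynomial σ ℤ)) :=
  ∏ b : σ, (Polynomial.C (PowerSeries.rescale (MvPolynomial.X b)
      (PowerSeries.map (MvPolynomial.C) d)) * Polynomial.X -
    Polynomial.C (PowerSeries.rescale (MvPolynomial.X b) (PowerSeries.map (MvPolynomial.C) a)))

lemma univ_map {S : Type*} [CommRing S] (a d : PowerSeries ℤ) (f : MvPolynomial σ ℤ →+* S) :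
    (univ σ a d).map (PowerSeries.map f) =
      ∏ b : σ, (Polynomial.C (PowerSeries.rescale (f (MvPolynomial.X b))
          (PowerSeries.map (Int.castRingHom S) d)) * Polynomial.X -
        Polynomial.C (PowerSeries.rescale (f (MvPolynomial.X b))
          (PowerSeries.map (Int.castRingHom S) a))) := by
  unfold univ
  rw [Polynomial.map_prod]
  refine Finset.prod_congr rfl fun b _ => ?_
  have hc : ∀ u : PowerSeries ℤ, PowerSeries.map f (PowerSeries.map (MvPolynomial.C (σ := σ)) u) =
      PowerSeries.map (Int.castRingHom S) u := by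
    intro u
    ext n
    simp only [PowerSeries.coeff_map]
    have : (f.comp (MvPolynomial.C (σ := σ))) = Int.castRingHom S := RingHom.ext_int _ _
    exact congrArg (fun g : ℤ →+* S => g (PowerSeries.coeff n u)) this
  rw [Polynomial.map_sub, Polynomial.map_mul, Polynomial.map_C, Polynomial.map_X,
    Polynomial.map_C, map_rescale, map_rescale, hc, hc]

lemma univ_coeff_symm (a d : PowerSeries ℤ) (i n : ℕ) :
    (((univ σ a d).coeff i).coeff n).IsSymmetric := by
  intro e
  have h1 : (univ σ a d).map (PowerSeries.map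
      ((MvPolynomial.rename e : MvPolynomial σ ℤ →ₐ[ℤ] MvPolynomial σ ℤ) :
        MvPolynomial σ ℤ →+* MvPolynomial σ ℤ)) = univ σ a d := by
    rw [univ_map]
    unfold univ
    refine Fintype.prod_equiv e _ _ fun b => ?_
    have hC : (Int.castRingHom (MvPolynomial σ ℤ)) = MvPolynomial.C := RingHom.ext_int _ _
    rw [hC]
    simp only [RingHom.coe_coe, MvPolynomial.rename_X]
  have h2 := congrArg (fun q => (q.coeff i).coeff n) h1
  simpa using h2

omit [DecidableEq σ] in
lemma eval_symm {y : σ → ℂ} (hy : ∀ k, k ≤ Fintype.card σ → ∃ c : ℤ,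
    MvPolynomial.aeval y (MvPolynomial.esymm σ ℤ k) = (c : ℂ))
    {G : MvPolynomial σ ℤ} (hG : G.IsSymmetric) : ∃ c : ℤ, MvPolynomial.aeval y G = (c : ℂ) := by
  obtain ⟨Q, hQ⟩ := MvPolynomial.esymmAlgHom_surjective (σ := σ) ℤ (le_refl (Fintype.card σ))
    ⟨G, hG⟩
  have h1 : G = MvPolynomial.aeval (fun i : Fin (Fintype.card σ) =>
      MvPolynomial.esymm σ ℤ (i + 1)) Q := by
    have := congrArg Subtype.val hQ
    rw [MvPolynomial.esymmAlgHom_apply] at this
    exact this.symm
  rw [h1]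
  clear h1 hQ
  induction Q using MvPolynomial.induction_on with
  | C a => exact ⟨a, by simp⟩
  | add p q hp hq =>
    obtain ⟨c, hc⟩ := hp
    obtain ⟨c', hc'⟩ := hq
    exact ⟨c + c', by rw [map_add, map_add, hc, hc']; push_cast; rfl⟩
  | mul_X p i hp =>
    obtain ⟨c, hc⟩ := hp
    obtain ⟨c', hc'⟩ := hy (i + 1) i.isLt
    exact ⟨c * c', by rw [map_mul, map_mul, hc, MvPolynomial.aeval_X, hc']; push_cast; rfl⟩

/-- integrality of products over symmetric evaluation points -/
theorem prod_integral {y : σ → ℂ} (hy : ∀ k, k ≤ Fintype.card σ → ∃ c : ℤ,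
    MvPolynomial.aeval y (MvPolynomial.esymm σ ℤ k) = (c : ℂ)) (a d : PowerSeries ℤ) (i : ℕ) :
    (∏ b : σ, (Polynomial.C (PowerSeries.rescale (y b)
          (PowerSeries.map (Int.castRingHom ℂ) d)) * Polynomial.X -
        Polynomial.C (PowerSeries.rescale (y b)
          (PowerSeries.map (Int.castRingHom ℂ) a)))).coeff i ∈ Zq := by
  rw [mem_Zq]
  intro n
  obtain ⟨c, hc⟩ := eval_symm hy (univ_coeff_symm a d i n)
  refine ⟨c, ?_⟩
  rw [← hc]
  have h1 := univ_map a d ((MvPolynomial.aeval y : MvPolynomial σ ℤ →ₐ[ℤ] ℂ) :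
    MvPolynomial σ ℤ →+* ℂ)
  simp only [RingHom.coe_coe, MvPolynomial.aeval_X] at h1
  rw [← h1]
  simp

end general

/-- the polynomial `X ^ l - 1` as a product over `ZMod l` -/
lemma prod_X_sub_zeta {l : ℕ} [NeZero l] {ζ : ℂ} (hζ : IsPrimitiveRoot ζ l) :
    ∏ b : ZMod l, (Polynomial.X - Polynomial.C (ζ ^ b.val)) = Polynomial.X ^ l - 1 := by
  rw [Polynomial.X_pow_sub_one_eq_prod (NeZero.pos l) hζ]
  have hinj : Set.InjOn (fun b : ZMod l => ζ ^ b.val) (Finset.univ : Finset (ZMod l)) := by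
    intro a _ b _ hab
    exact ZMod.val_injective l (hζ.pow_inj (ZMod.val_lt a) (ZMod.val_lt b) hab)
  have h1 : Polynomial.nthRootsFinset l (1 : ℂ) =
      Finset.univ.image (fun b : ZMod l => ζ ^ b.val) := by
    symm
    apply Finset.eq_of_subset_of_card_le
    · intro x hx
      rw [Finset.mem_image] at hx
      obtain ⟨b, _, rfl⟩ := hx
      rw [Polynomial.mem_nthRootsFinset (NeZero.pos l)]
      rw [← pow_mul, mul_comm, pow_mul, hζ.pow_eq_one, one_pow]
    · rw [hζ.card_nthRootsFinset, Finset.card_image_of_injOn hinj, Finset.card_univ,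
        ZMod.card]
  rw [h1, Finset.prod_image hinj]

lemma esymm_zeta {l : ℕ} [NeZero l] {ζ : ℂ} (hζ : IsPrimitiveRoot ζ l) (k : ℕ)
    (hk : k ≤ Fintype.card (ZMod l)) : ∃ c : ℤ,
    MvPolynomial.aeval (fun b : ZMod l => ζ ^ b.val) (MvPolynomial.esymm (ZMod l) ℤ k) =
      (c : ℂ) := by
  rw [MvPolynomial.aeval_esymm_eq_multiset_esymm]
  set s : Multiset ℂ := Finset.univ.val.map (fun b : ZMod l => ζ ^ b.val) with hs
  have hcard : Multiset.card s = l := by
    rw [hs, Multiset.card_map]
    simp [ZMod.card]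
  have hkl : k ≤ l := by rwa [ZMod.card] at hk
  have h1 := Multiset.prod_X_sub_C_coeff s (k := l - k) (by omega)
  have h2 : (s.map (fun t => Polynomial.X - Polynomial.C t)).prod = Polynomial.X ^ l - 1 := by
    rw [← prod_X_sub_zeta hζ, hs, Multiset.map_map]
    rfl
  rw [h2, hcard, show l - (l - k) = k by omega] at h1
  have h3 : ∃ c : ℤ, (Polynomial.X ^ l - 1 : Polynomial ℂ).coeff (l - k) = c := by
    refine ⟨(Polynomial.X ^ l - 1 : Polynomial ℤ).coeff (l - k), ?_⟩
    rw [Polynomial.coeff_sub, Polynomial.coeff_sub, Polynomial.coeff_X_pow, Polynomial.coeff_X_pow,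
      Polynomial.coeff_one, Polynomial.coeff_one]
    push_cast
    rfl
  obtain ⟨c, hc⟩ := h3
  refine ⟨(-1) ^ k * c, ?_⟩
  rw [hc] at h1
  push_cast
  rw [h1, ← mul_assoc, ← mul_pow]
  simp

theorem prod_zeta_integral {l : ℕ} [NeZero l] {ζ : ℂ} (hζ : IsPrimitiveRoot ζ l)
    (a d : PowerSeries ℤ) (i : ℕ) :
    (∏ b : ZMod l, (Polynomial.C (PowerSeries.rescale (ζ ^ b.val)
          (PowerSeries.map (Int.castRingHom ℂ) d)) * Polynomial.X -
        Polynomial.C (PowerSeries.rescale (ζ ^ b.val)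
          (PowerSeries.map (Int.castRingHom ℂ) a)))).coeff i ∈ Zq :=
  prod_integral (y := fun b : ZMod l => ζ ^ b.val) (esymm_zeta hζ) a d i

end

end Pool.Agent.Lib.ModPoly29
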