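import Pool.Agent.Lib.ModPoly29.Points

/-!
# The ring of holomorphic `l`-periodic functions bounded at `i∞`, and its `q`-expansions
-/

open UpperHalfPlane ModularForm ModularFormClass MatrixGroups EisensteinSeries
open scoped Manifold

namespace Pool.Agent.Lib.ModPoly29

noncomputable section


lemma bdd_mul {f g : ℍ → ℂ} (hf : IsBoundedAtImInfty f) (hg : IsBoundedAtImInfty g) :
    IsBoundedAtImInfty (f * g) := by
  have := Filter.BoundedAtFilter.mul hf hg
  exact this

/-- holomorphic functions on `ℍ`, periodic with period `l` and bounded at `i∞` -/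
def Rl (l : ℕ) : Subring (ℍ → ℂ) where
  carrier := {f | MDiff f ∧ Function.Periodic (f ∘ ofComplex) (l : ℝ) ∧ IsBoundedAtImInfty f}
  mul_mem' := fun {f g} hf hg => ⟨hf.1.mul hg.1, fun z => by
    have h1 := hf.2.1 z
    have h2 := hg.2.1 z
    simp only [Function.comp_apply, Pi.mul_apply] at h1 h2 ⊢
    rw [h1, h2], bdd_mul hf.2.2 hg.2.2⟩
  one_mem' := ⟨mdifferentiable_const, fun z => rfl, Filter.const_boundedAtFilter _ 1⟩
  add_mem' := fun {f g} hf hg => ⟨hf.1.add hg.1, fun z => by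
    have h1 := hf.2.1 z
    have h2 := hg.2.1 z
    simp only [Function.comp_apply, Pi.add_apply] at h1 h2 ⊢
    rw [h1, h2], hf.2.2.add hg.2.2⟩
  zero_mem' := ⟨mdifferentiable_const, fun z => rfl, Filter.const_boundedAtFilter _ 0⟩
  neg_mem' := fun {f} hf => ⟨hf.1.neg, fun z => by
    have h1 := hf.2.1 z
    simp only [Function.comp_apply, Pi.neg_apply] at h1 ⊢
    rw [h1], hf.2.2.neg⟩

lemma mem_Rl {l : ℕ} {f : ℍ → ℂ} : f ∈ Rl l ↔
    MDiff f ∧ Function.Periodic (f ∘ ofComplex) (l : ℝ) ∧ IsBoundedAtImInfty f := Iff.rfl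

lemma Rl_analytic {l : ℕ} (hl : 0 < l) {f : ℍ → ℂ} (hf : f ∈ Rl l) :
    AnalyticAt ℂ (cuspFunction l f) 0 :=
  analyticAt_cuspFunction_zero (by exact_mod_cast hl) hf.2.1 hf.1 hf.2.2

/-- the `q`-expansion as a ring homomorphism -/
def qh (l : ℕ) (hl : 0 < l) : Rl l →+* PowerSeries ℂ where
  toFun f := qExpansion l f.1
  map_one' := qExpansion_one _
  map_mul' f g := qExpansion_mul (Rl_analytic hl f.2) (Rl_analytic hl g.2)
  map_zero' := qExpansion_zero _
  map_add' f g := qExpansion_add (Rl_analytic hl f.2) (Rl_analytic hl g.2)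

/-- evaluation at a point -/
def ev (l : ℕ) (τ : ℍ) : Rl l →+* ℂ := (Pi.evalRingHom (fun _ : ℍ => ℂ) τ).comp (Rl l).subtype

lemma ev_apply (l : ℕ) (τ : ℍ) (f : Rl l) : ev l τ f = f.1 τ := rfl

/-- a holomorphic function given by a power series in `exp (2 π i τ / l)` -/
lemma mem_Rl_of_hasSum {l : ℕ} (hl : 0 < l) {f : ℍ → ℂ} {c : ℕ → ℂ} (hf : MDiff f)
    (h : ∀ τ : ℍ, HasSum (fun m => c m • Function.Periodic.qParam (l : ℝ) τ ^ m) (f τ)) :
    f ∈ Rl l ∧ qExpansion l f = PowerSeries.mk c := by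
  have hl' : (0 : ℝ) < l := by exact_mod_cast hl
  have hmem : f ∈ Rl l := by
    refine ⟨hf, ?_, isBoundedAtImInfty_of_hasSum_qExpansion hl' h⟩
    intro w
    by_cases hw : 0 < w.im
    · have hw' : 0 < (w + (l : ℝ)).im := by simpa using hw
      simp only [Function.comp_apply]
      rw [ofComplex_apply_of_im_pos hw, ofComplex_apply_of_im_pos hw']
      have h1 := h ⟨w, hw⟩
      have h2 := h ⟨w + (l : ℝ), hw'⟩
      have h3 : Function.Periodic.qParam (l : ℝ) (((⟨w + (l : ℝ), hw'⟩ : ℍ)) : ℂ) = Function.Periodic.qParam (l : ℝ) ((⟨w, hw⟩ : ℍ) : ℂ) := by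
        change Function.Periodic.qParam (l : ℝ) (w + (l : ℝ)) = Function.Periodic.qParam (l : ℝ) w
        unfold Function.Periodic.qParam
        have hl0 : ((l : ℝ) : ℂ) ≠ 0 := by exact_mod_cast hl'.ne'
        rw [show 2 * (Real.pi : ℂ) * Complex.I * (w + (l : ℝ)) / (l : ℝ) =
          2 * (Real.pi : ℂ) * Complex.I * w / (l : ℝ) + 2 * Real.pi * Complex.I by
            field_simp, Complex.exp_periodic]
      rw [h3] at h2
      exact h2.unique h1
    · have hw' : (w + (l : ℝ)).im ≤ 0 := by simpa using hw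
      simp only [Function.comp_apply]
      rw [ofComplex_apply_of_im_nonpos hw', ofComplex_apply_of_im_nonpos (not_lt.mp hw)]
  refine ⟨hmem, ?_⟩
  ext m
  rw [PowerSeries.coeff_mk]
  have hfan := Rl_analytic hl hmem
  have h1 := (hasFPowerSeriesOnBall_cuspFunction hl' hfan h).hasFPowerSeriesAt
  have h2 := hfan.hasFPowerSeriesAt
  have h3 := congr_arg (FormalMultilinearSeries.coeff · m) (h1.eq_formalMultilinearSeries h2)
  simp only [FormalMultilinearSeries.coeff_ofScalars] at h3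
  rw [qExpansion_coeff, h3]
  field_simp

variable {l : ℕ} [NeZero l]

lemma mdiff_pt {f : ℍ → ℂ} (hf : MDiff f) (o : Option (ZMod l)) :
    MDiff (fun τ => f (pt l o τ)) := by
  rw [UpperHalfPlane.mdifferentiable_iff] at hf ⊢
  -- the affine map
  obtain ⟨φ, hφ1, hφ2⟩ : ∃ φ : ℂ → ℂ, Differentiable ℂ φ ∧
      ∀ τ : ℍ, ((pt l o τ : ℍ) : ℂ) = φ τ := by
    cases o with
    | none => exact ⟨fun z => l * z, by fun_prop, fun τ => rfl⟩
    | some b => exact ⟨fun z => (z + (b.val : ℂ)) / l, by fun_prop, fun τ => rfl⟩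
  have h1 : Set.MapsTo φ upperHalfPlaneSet upperHalfPlaneSet := by
    intro z hz
    have := (pt l o ⟨z, hz⟩).im_pos
    rw [← UpperHalfPlane.coe_im, hφ2] at this
    exact this
  refine (hf.comp hφ1.differentiableOn h1).congr ?_
  intro z hz
  simp only [Function.comp_apply]
  rw [ofComplex_apply_of_im_pos hz, ofComplex_apply_of_im_pos (h1 hz)]
  congr 1
  ext
  exact hφ2 ⟨z, hz⟩

/-- the root of unity `exp (2 π i / l)` -/
def zet (l : ℕ) : ℂ := Complex.exp (2 * Real.pi * Complex.I / l)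

lemma zet_primitive : IsPrimitiveRoot (zet l) l := Complex.isPrimitiveRoot_exp l (NeZero.ne l)

lemma qParam_some (b : ZMod l) (τ : ℍ) :
    Function.Periodic.qParam (1 : ℝ) (pt l (some b) τ : ℍ) = zet l ^ b.val * Function.Periodic.qParam (l : ℝ) τ := by
  unfold Function.Periodic.qParam zet
  rw [← Complex.exp_nat_mul, ← Complex.exp_add, coe_pt_some]
  congr 1
  have hl : (l : ℂ) ≠ 0 := by exact_mod_cast NeZero.ne l
  push_cast
  field_simp
  ring

lemma qParam_none (τ : ℍ) :
    Function.Periodic.qParam (1 : ℝ) (pt l none τ : ℍ) = Function.Periodic.qParam (l : ℝ) τ ^ (l ^ 2) := by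
  unfold Function.Periodic.qParam
  rw [← Complex.exp_nat_mul, coe_pt_none]
  congr 1
  have hl : (l : ℂ) ≠ 0 := by exact_mod_cast NeZero.ne l
  push_cast
  field_simp

/-- `q ↦ q ^ (l^2)` on power series -/
def expand2 (l : ℕ) (u : PowerSeries ℂ) : PowerSeries ℂ :=
  PowerSeries.mk fun m => if l ^ 2 ∣ m then u.coeff (m / l ^ 2) else 0

/-- holomorphic functions on `ℍ` given by their `q`-expansion -/
def Nice (f : ℍ → ℂ) : Prop := MDiff f ∧
  ∀ τ : ℍ, HasSum (fun m : ℕ => (qExpansion 1 f).coeff m • Function.Periodic.qParam (1 : ℝ) τ ^ m) (f τ)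

lemma nice_of_form {F : Type*} [FunLike F ℍ ℂ] (k : ℤ) [ModularFormClass F 𝒮ℒ k] (f : F) :
    Nice f := by
  refine ⟨ModularFormClass.holo f, fun τ => ?_⟩
  have : Fact (IsCusp OnePoint.infty 𝒮ℒ) :=
    ⟨Subgroup.isCusp_of_mem_strictPeriods one_pos one_mem_strictPeriods_SL⟩
  exact UpperHalfPlane.hasSum_qExpansion one_pos
    (SlashInvariantFormClass.periodic_comp_ofComplex f one_mem_strictPeriods_SL)
    (ModularFormClass.holo f) (ModularFormClass.bdd_at_infty f) τ

lemma pt_some_mem {f : ℍ → ℂ} (hf : Nice f) (b : ZMod l) :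
    (fun τ => f (pt l (some b) τ)) ∈ Rl l ∧
      qExpansion l (fun τ => f (pt l (some b) τ)) =
        PowerSeries.rescale (zet l ^ b.val) (qExpansion 1 f) := by
  have h := mem_Rl_of_hasSum (l := l) (NeZero.pos l)
    (c := fun m => (zet l ^ b.val) ^ m * (qExpansion 1 f).coeff m)
    (mdiff_pt hf.1 (some b)) (fun τ => by
      have h1 := hf.2 (pt l (some b) τ)
      rw [qParam_some] at h1
      convert h1 using 2 with m
      simp only [smul_eq_mul, mul_pow]
      ring)
  refine ⟨h.1, ?_⟩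
  rw [h.2]
  ext m
  rw [PowerSeries.coeff_mk, PowerSeries.coeff_rescale]

lemma pt_none_mem {f : ℍ → ℂ} (hf : Nice f) :
    (fun τ => f (pt l none τ)) ∈ Rl l ∧
      qExpansion l (fun τ => f (pt l none τ)) = expand2 l (qExpansion 1 f) := by
  have hl2 : 0 < l ^ 2 := pow_pos (NeZero.pos l) 2
  have h := mem_Rl_of_hasSum (l := l) (NeZero.pos l)
    (c := fun m => if l ^ 2 ∣ m then (qExpansion 1 f).coeff (m / l ^ 2) else 0)
    (mdiff_pt hf.1 none) (fun τ => by
      have h1 := hf.2 (pt l none τ)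
      rw [qParam_none] at h1
      have hinj : Function.Injective (fun m : ℕ => l ^ 2 * m) := by
        intro a b hab
        exact Nat.eq_of_mul_eq_mul_left hl2 hab
      rw [← hinj.hasSum_iff]
      · convert h1 using 2 with m
        simp only [Function.comp_apply, smul_eq_mul]
        rw [if_pos (dvd_mul_right _ _), Nat.mul_div_cancel_left _ hl2, pow_mul]
      · intro m hm
        rw [if_neg, zero_smul]
        rintro ⟨c, rfl⟩
        exact hm ⟨c, rfl⟩)
  refine ⟨h.1, ?_⟩
  rw [h.2]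
  rfl

end

end Pool.Agent.Lib.ModPoly29
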